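import Pool.Agent.T6.H77.VN.Stm
import Pool.Agent.T6.H77.VR.CLO

/-!
# Project VN, module CL (helper33): the closure of the rational points is stable under moves
-/

set_option autoImplicit false

namespace Pool.Agent.T6.H77.VN

open Function

namespace CL

section alg

variable {J R : Type} [Fintype J] [DecidableEq J] [CommRing R] {t : Tm J R}

/-- the factors at the places other than `j` -/
def rest (j : J) (x : J → Fin 3 → R) (a : J → Fin 3 × Fin 3) : R :=
  ∏ l ∈ Finset.univ.erase j, (x l (a l).1 * x l (a l).2)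

theorem pj_exp (j : J) (x : J → Fin 3 → R) (z z' : Fin 3 → R) :
    pj t j x z z' = ∑ a, t a * (z (a j).1 * z' (a j).2 * rest j x a) := by
  unfold pj PB rest
  refine Finset.sum_congr rfl fun a _ => ?_
  congr 1
  rw [← Finset.mul_prod_erase _ _ (Finset.mem_univ j)]
  congr 1
  · simp
  · refine Finset.prod_congr rfl fun l hl => ?_
    have h := Finset.ne_of_mem_erase hl
    simp [h]

theorem Fn_pj (j : J) (x : J → Fin 3 → R) (z : Fin 3 → R) :
    Fn t (update x j z) = pj t j x z z := rfl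

theorem Fn_self (j : J) (x : J → Fin 3 → R) : Fn t x = pj t j x (x j) (x j) := by
  unfold pj
  rw [update_eq_self]
  rfl

theorem pj_symm' (hs : Sn t) (j : J) (x : J → Fin 3 → R) (z z' : Fin 3 → R) :
    pj t j x z z' = pj t j x z' z := by
  rw [pj_exp, pj_exp]
  let e : (J → Fin 3 × Fin 3) → (J → Fin 3 × Fin 3) := fun a => update a j (a j).swap
  have he : Function.Involutive e := by
    intro a
    funext l
    by_cases h : l = j
    · subst h; simp [e]
    · simp [e, h]
  refine Finset.sum_bij' (fun a _ => e a) (fun a _ => e a) (fun _ _ => Finset.mem_univ _)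
    (fun _ _ => Finset.mem_univ _) (fun a _ => he a) (fun a _ => he a) ?_
  intro a _
  have h1 : t (e a) = t a := hs a j
  have h2 : rest j x (e a) = rest j x a := by
    unfold rest
    refine Finset.prod_congr rfl fun l hl => ?_
    have h := Finset.ne_of_mem_erase hl
    simp [e, h]
  have h3 : (e a) j = (a j).swap := by simp [e]
  rw [h1, h2, h3, Prod.fst_swap, Prod.snd_swap, mul_comm (z' (a j).2)]

theorem pj_bl (j : J) (x : J → Fin 3 → R) (z z' : Fin 3 → R) :
    pj t j x z z' = ∑ a, ∑ b, dj t j x a b * z a * z' b := by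
  have key : ∀ (s : J → Fin 3 × Fin 3), z (s j).1 * z' (s j).2 =
      ∑ a, ∑ b, (Pi.single a (1 : R) : Fin 3 → R) (s j).1 *
        (Pi.single b (1 : R) : Fin 3 → R) (s j).2 * (z a * z' b) := by
    intro s
    simp only [Pi.single_apply, ite_mul, one_mul, zero_mul, mul_ite, mul_one, mul_zero]
    simp
  rw [pj_exp]
  simp only [dj, Matrix.of_apply, pj_exp, key, Finset.sum_mul, Finset.mul_sum]
  rw [Finset.sum_comm]
  refine Finset.sum_congr rfl fun a _ => ?_
  rw [Finset.sum_comm]
  refine Finset.sum_congr rfl fun b _ => Finset.sum_congr rfl fun s _ => ?_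
  ring

theorem dj_sym (hs : Sn t) (j : J) (x : J → Fin 3 → R) (a b : Fin 3) :
    dj t j x a b = dj t j x b a := pj_symm' hs j x _ _

theorem pj_comb (j : J) (x : J → Fin 3 → R) (z u v : Fin 3 → R) (c d : R) :
    pj t j x (c • z + d • u) v = c * pj t j x z v + d * pj t j x u v := by
  simp only [pj_exp, Finset.mul_sum, ← Finset.sum_add_distrib]
  refine Finset.sum_congr rfl fun a _ => ?_
  simp only [Pi.add_apply, Pi.smul_apply, smul_eq_mul]
  ring

theorem Fn_comb (hs : Sn t) (j : J) (x : J → Fin 3 → R) (z u : Fin 3 → R) (c d : R) :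
    Fn t (update x j (c • z + d • u)) =
      c ^ 2 * pj t j x z z + 2 * c * d * pj t j x z u + d ^ 2 * pj t j x u u := by
  rw [Fn_pj, pj_comb, pj_symm' hs j x z, pj_symm' hs j x u, pj_comb, pj_comb,
    pj_symm' hs j x u z]
  ring

/-- scaling -/
def Th (j : J) (c : R) (x : J → Fin 3 → R) : J → Fin 3 → R := update x j (c • x j)

theorem Fn_Th (j : J) (c : R) (x : J → Fin 3 → R) : Fn t (Th j c x) = c ^ 2 * Fn t x := by
  unfold Th
  rw [Fn_pj, Fn_self j x]
  simp only [pj_exp, Finset.mul_sum]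
  refine Finset.sum_congr rfl fun a _ => ?_
  simp only [Pi.smul_apply, smul_eq_mul]
  ring

variable (t) in
/-- the scaled second point of the line through `x j` in direction `u` -/
def Ps (j : J) (u : Fin 3 → R) (c : R) (x : J → Fin 3 → R) : J → Fin 3 → R :=
  update x j (c • (Fn t (update x j u) • x j + (-(2 * pj t j x (x j) u)) • u))

theorem Fn_Ps (hs : Sn t) (j : J) (u : Fin 3 → R) (c : R) (x : J → Fin 3 → R)
    (h : Fn t x = 0) : Fn t (Ps t j u c x) = 0 := by
  unfold Ps
  rw [smul_add, smul_smul, smul_smul, Fn_comb hs, ← Fn_self, h, Fn_pj]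
  ring

section map

variable {S : Type} [CommRing S] (s : R →+* S)

theorem map_upd (j : J) (x : J → Fin 3 → R) (z : Fin 3 → R) :
    (fun l c => s (update x j z l c)) = update (fun l c => s (x l c)) j (fun c => s (z c)) := by
  funext l c
  by_cases h : l = j
  · subst h; simp
  · simp [h]

theorem PB_mp (x y : J → Fin 3 → R) :
    s (PB t x y) = PB (fun a => s (t a)) (fun l c => s (x l c)) (fun l c => s (y l c)) := by
  simp only [PB, map_sum, map_mul, map_prod]

theorem Fn_mp (x : J → Fin 3 → R) :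
    s (Fn t x) = Fn (fun a => s (t a)) (fun l c => s (x l c)) := PB_mp s x x

theorem pj_mp (j : J) (x : J → Fin 3 → R) (z z' : Fin 3 → R) :
    s (pj t j x z z') = pj (fun a => s (t a)) j (fun l c => s (x l c)) (fun c => s (z c))
      (fun c => s (z' c)) := by
  unfold pj
  rw [PB_mp, map_upd, map_upd]

theorem Th_mp (j : J) (c : R) (x : J → Fin 3 → R) :
    (fun l i => s (Th j c x l i)) = Th j (s c) (fun l i => s (x l i)) := by
  unfold Th
  rw [map_upd]
  congr 1
  funext i
  simp

theorem Ps_mp (j : J) (u : Fin 3 → R) (c : R) (x : J → Fin 3 → R) :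
    (fun l i => s (Ps t j u c x l i)) =
      Ps (fun a => s (t a)) j (fun i => s (u i)) (s c) (fun l i => s (x l i)) := by
  unfold Ps
  rw [map_upd]
  congr 1
  funext i
  simp only [Pi.smul_apply, Pi.add_apply, smul_eq_mul, map_mul, map_add, map_neg, map_ofNat]
  rw [Fn_mp, pj_mp, map_upd]

end map

end alg

section stay

variable {J k : Type} [Fintype J] [DecidableEq J] [Field k] {t : Tm J k}

theorem bl_stay' {D : Matrix (Fin 3) (Fin 3) k} (h2 : (2 : k) ≠ 0)
    (hD : ∀ a b, D a b = D b a) (hdet : D.det ≠ 0) {x : Fin 3 → k}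
    (h : VR.CLO.bl D x x = 0) : ∃ u, VR.CLO.bl D u u ≠ 0 ∧ VR.CLO.bl D x u = 0 := by
  by_cases hx : x = 0
  · by_contra hc
    push Not at hc
    have h0 : ∀ u, VR.CLO.bl D u u = 0 := by
      intro u
      by_contra hu
      exact hc u hu (by rw [hx]; simp [VR.CLO.bl])
    apply hdet
    have h00 := h0 ![1, 0, 0]
    have h11 := h0 ![0, 1, 0]
    have h22 := h0 ![0, 0, 1]
    have h01 := h0 ![1, 1, 0]
    have h02 := h0 ![1, 0, 1]
    have h12 := h0 ![0, 1, 1]
    simp only [VR.CLO.bl, Fin.sum_univ_three, Matrix.cons_val_zero, Matrix.cons_val_one,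
      Matrix.cons_val] at h00 h11 h22 h01 h02 h12
    rw [hD 1 0] at h01
    rw [hD 2 0] at h02
    rw [hD 2 1] at h12
    have a0 : D 0 0 = 0 := by linear_combination h00
    have a1 : D 1 1 = 0 := by linear_combination h11
    have a2 : D 2 2 = 0 := by linear_combination h22
    have b0 : D 0 1 = 0 := by
      have : 2 * D 0 1 = 0 := by linear_combination h01 - a0 - a1
      exact (mul_eq_zero.1 this).resolve_left h2
    have b1 : D 0 2 = 0 := by
      have : 2 * D 0 2 = 0 := by linear_combination h02 - a0 - a2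
      exact (mul_eq_zero.1 this).resolve_left h2
    have b2 : D 1 2 = 0 := by
      have : 2 * D 1 2 = 0 := by linear_combination h12 - a1 - a2
      exact (mul_eq_zero.1 this).resolve_left h2
    rw [Matrix.det_fin_three, hD 1 0, hD 2 0, hD 2 1, a0, a1, a2, b0, b1, b2]
    ring
  · exact VR.CLO.bl_stay hD hdet hx h

theorem stay (h2 : (2 : k) ≠ 0) (hs : Sn t) (j : J) (x : J → Fin 3 → k) (h : Fn t x = 0)
    (hd : (dj t j x).det ≠ 0) : ∃ (u : Fin 3 → k) (c : k), Ps t j u c x = x := by
  have h' : VR.CLO.bl (dj t j x) (x j) (x j) = 0 := by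
    rw [Fn_self j, pj_bl] at h
    exact h
  obtain ⟨u, hu, hp⟩ := bl_stay' h2 (dj_sym hs j x) hd h'
  refine ⟨u, (Fn t (update x j u))⁻¹, ?_⟩
  have hu' : Fn t (update x j u) ≠ 0 := by
    rw [Fn_pj, pj_bl]
    exact hu
  have hp' : pj t j x (x j) u = 0 := by
    rw [pj_bl]
    exact hp
  unfold Ps
  rw [hp', mul_zero, neg_zero, zero_smul, add_zero, smul_smul, inv_mul_cancel₀ hu', one_smul,
    update_eq_self]

theorem move (h2 : (2 : k) ≠ 0) (j : J) (x : J → Fin 3 → k) (z : Fin 3 → k)
    (h : Fn t (update x j z) = 0) (h' : pj t j x (x j) z ≠ 0) :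
    Ps t j z (-(2 * pj t j x (x j) z))⁻¹ x = update x j z := by
  have h3 : -(2 * pj t j x (x j) z) ≠ 0 := neg_ne_zero.2 (mul_ne_zero h2 h')
  unfold Ps
  rw [h, zero_smul, zero_add, smul_smul, inv_mul_cancel₀ h3, one_smul]

end stay

section top

variable {J : Type} [Fintype J] [DecidableEq J]

theorem PB_cont {X k : Type} [TopologicalSpace X] [NontriviallyNormedField k] (t : Tm J k)
    {f g : X → J → Fin 3 → k} (hf : Continuous f) (hg : Continuous g) :
    Continuous fun x => PB t (f x) (g x) := by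
  unfold PB
  fun_prop

theorem Th_cont {X k : Type} [TopologicalSpace X] [NontriviallyNormedField k] (j : J)
    {f : X → J → Fin 3 → k} {c : X → k} (hf : Continuous f) (hc : Continuous c) :
    Continuous fun x => Th j (c x) (f x) := by
  unfold Th
  have h1 : Continuous fun x => f x j := by fun_prop
  exact hf.update j (hc.smul h1)

theorem Ps_cont {X k : Type} [TopologicalSpace X] [NontriviallyNormedField k] (t : Tm J k)
    (j : J) {f : X → J → Fin 3 → k} {u : X → Fin 3 → k} {c : X → k} (hf : Continuous f)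
    (hu : Continuous u) (hc : Continuous c) : Continuous fun x => Ps t j (u x) (c x) (f x) := by
  unfold Ps
  have h1 : Continuous fun x => f x j := by fun_prop
  have h2 : Continuous fun x => update (f x) j (u x) := hf.update j hu
  have h3 : Continuous fun x => update (f x) j (f x j) := hf.update j h1
  have h4 : Continuous fun x => Fn t (update (f x) j (u x)) := PB_cont t h2 h2
  have h5 : Continuous fun x => pj t j (f x) (f x j) (u x) := PB_cont t h3 h2
  exact hf.update j (hc.smul ((h4.smul h1).add ((continuous_const.mul h5).neg.smul hu)))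

variable {K W L : Type} [Field K] [NontriviallyNormedField L] {M : W → Type}
  [∀ w, NontriviallyNormedField (M w)] (τ : K →+* L) (σ : ∀ w, K →+* M w)

theorem dens3 (hσ : DenseRange fun b : K => (τ b, fun w => σ w b))
    (u : (Fin 3 → L) × (∀ w, Fin 3 → M w)) :
    u ∈ closure {S : (Fin 3 → L) × (∀ w, Fin 3 → M w) | ∃ v : Fin 3 → K,
      S = (fun i => τ (v i), fun w i => σ w (v i))} := by
  have h1 : DenseRange (Pi.map fun (_ : Fin 3) (b : K) =>
      ((τ b, fun w => σ w b) : L × (∀ w, M w))) := DenseRange.piMap fun _ => hσ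
  let Φ : (Fin 3 → L × (∀ w, M w)) → (Fin 3 → L) × (∀ w, Fin 3 → M w) :=
    fun c => (fun i => (c i).1, fun w i => (c i).2 w)
  have hΦ : Continuous Φ := by
    refine Continuous.prodMk ?_ ?_
    · fun_prop
    · refine continuous_pi fun w => continuous_pi fun i => ?_
      change Continuous fun c : Fin 3 → L × (∀ w, M w) => (c i).2 w
      fun_prop
  have h2 : u = Φ fun i => (u.1 i, fun w => u.2 w i) := rfl
  rw [h2]
  refine map_mem_closure hΦ (h1 fun i => (u.1 i, fun w => u.2 w i)) ?_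
  rintro _ ⟨v, rfl⟩
  exact ⟨v, rfl⟩

variable (t : Tm J K)

/-- the rational points -/
def Ra : Set ((J → Fin 3 → L) × (∀ w, J → Fin 3 → M w)) := {S | ∃ x : J → Fin 3 → K,
    Fn t x = 0 ∧ S = (fun l c => τ (x l c), fun w l c => σ w (x l c))}

theorem step_Ps (hσ : DenseRange fun b : K => (τ b, fun w => σ w b)) (hs : Sn t) (j : J)
    (p : J → Fin 3 → L) (R : ∀ w, J → Fin 3 → M w) (hp : (p, R) ∈ closure (Ra τ σ t))
    (u1 : Fin 3 → L) (u2 : ∀ w, Fin 3 → M w) (c1 : L) (c2 : ∀ w, M w) :
    (Ps (fun a => τ (t a)) j u1 c1 p, fun w => Ps (fun a => σ w (t a)) j (u2 w) (c2 w) (R w)) ∈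
      closure (Ra τ σ t) := by
  let Φ : ((J → Fin 3 → L) × (∀ w, J → Fin 3 → M w)) ×
      (((Fin 3 → L) × (∀ w, Fin 3 → M w)) × (L × (∀ w, M w))) →
      (J → Fin 3 → L) × (∀ w, J → Fin 3 → M w) := fun q =>
    (Ps (fun a => τ (t a)) j q.2.1.1 q.2.2.1 q.1.1,
      fun w => Ps (fun a => σ w (t a)) j (q.2.1.2 w) (q.2.2.2 w) (q.1.2 w))
  have hΦ : Continuous Φ := by
    refine Continuous.prodMk ?_ ?_
    · exact Ps_cont _ j (by fun_prop) (by fun_prop) (by fun_prop)
    · refine continuous_pi fun w => ?_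
      exact Ps_cont _ j (by fun_prop) (by fun_prop) (by fun_prop)
  have hmem : (((p, R), ((u1, u2), (c1, c2))) : ((J → Fin 3 → L) × (∀ w, J → Fin 3 → M w)) ×
      (((Fin 3 → L) × (∀ w, Fin 3 → M w)) × (L × (∀ w, M w)))) ∈
      closure (Ra τ σ t ×ˢ ({S : (Fin 3 → L) × (∀ w, Fin 3 → M w) | ∃ v : Fin 3 → K,
        S = (fun i => τ (v i), fun w i => σ w (v i))} ×ˢ
        Set.range fun b : K => ((τ b, fun w => σ w b) : L × (∀ w, M w)))) := by
    rw [closure_prod_eq, closure_prod_eq]
    exact ⟨hp, dens3 τ σ hσ _, hσ _⟩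
  have h := map_mem_closure (t := Ra τ σ t) hΦ hmem ?_
  · exact h
  rintro ⟨_, _, _⟩ ⟨⟨x, hx, rfl⟩, ⟨v, rfl⟩, ⟨b, rfl⟩⟩
  refine ⟨Ps t j v b x, Fn_Ps hs j v b x hx, ?_⟩
  refine Prod.ext ?_ ?_
  · exact (Ps_mp τ j v b x).symm
  · funext w
    exact (Ps_mp (σ w) j v b x).symm

theorem step_Th (hσ : DenseRange fun b : K => (τ b, fun w => σ w b)) (j : J)
    (p : J → Fin 3 → L) (R : ∀ w, J → Fin 3 → M w) (hp : (p, R) ∈ closure (Ra τ σ t))
    (c1 : L) (c2 : ∀ w, M w) :
    (Th j c1 p, fun w => Th j (c2 w) (R w)) ∈ closure (Ra τ σ t) := by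
  let Φ : ((J → Fin 3 → L) × (∀ w, J → Fin 3 → M w)) × (L × (∀ w, M w)) →
      (J → Fin 3 → L) × (∀ w, J → Fin 3 → M w) := fun q =>
    (Th j q.2.1 q.1.1, fun w => Th j (q.2.2 w) (q.1.2 w))
  have hΦ : Continuous Φ := by
    refine Continuous.prodMk ?_ ?_
    · exact Th_cont j (by fun_prop) (by fun_prop)
    · refine continuous_pi fun w => ?_
      exact Th_cont j (by fun_prop) (by fun_prop)
  have hmem : (((p, R), (c1, c2)) : ((J → Fin 3 → L) × (∀ w, J → Fin 3 → M w)) ×
      (L × (∀ w, M w))) ∈ closure (Ra τ σ t ×ˢ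
        Set.range fun b : K => ((τ b, fun w => σ w b) : L × (∀ w, M w))) := by
    rw [closure_prod_eq]
    exact ⟨hp, hσ _⟩
  have h := map_mem_closure (t := Ra τ σ t) hΦ hmem ?_
  · exact h
  rintro ⟨_, _⟩ ⟨⟨x, hx, rfl⟩, ⟨b, rfl⟩⟩
  refine ⟨Th j b x, by rw [Fn_Th, hx, mul_zero], ?_⟩
  refine Prod.ext ?_ ?_
  · exact (Th_mp τ j b x).symm
  · funext w
    exact (Th_mp (σ w) j b x).symm

end top

end CL

open CL in
theorem cl : StmCL := by
  intro J K W L _ _ _ _ M _ τ σ hσ h2 t hs R hR hd p q hE hp hcl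
  change (p, R) ∈ closure (Ra τ σ t) at hcl
  change (q, R) ∈ closure (Ra τ σ t)
  have h2L : (2 : L) ≠ 0 := fun hc => h2 (τ.injective (by rw [map_ofNat, map_zero, hc]))
  have h2M : ∀ w, (2 : M w) ≠ 0 := fun w hc =>
    h2 ((σ w).injective (by rw [map_ofNat, map_zero, hc]))
  have hsM : ∀ w, Sn (fun a => σ w (t a)) := fun w a j => congrArg (σ w) (hs a j)
  revert hp hcl
  refine Relation.ReflTransGen.head_induction_on (motive := fun p _ =>
    Fn (fun a => τ (t a)) p = 0 → (p, R) ∈ closure (Ra τ σ t) → (q, R) ∈ closure (Ra τ σ t))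
    hE (fun _ h => h) ?_
  intro p p' hst _ ih hp hcl
  cases hst with
  | mv j z h h' =>
    refine ih h ?_
    choose u c huc using fun w => stay (h2M w) (hsM w) j (R w) (hR w) (hd w j)
    have h3 := step_Ps τ σ t hσ hs j p R hcl z u
      (-(2 * pj (fun a => τ (t a)) j p (p j) z))⁻¹ c
    rw [move h2L j p z h h'] at h3
    have h4 : (fun w => Ps (fun a => σ w (t a)) j (u w) (c w) (R w)) = R := funext huc
    rw [h4] at h3
    exact h3
  | sc j c hc =>
    have h3 := step_Th τ σ t hσ j p R hcl c (fun _ => 1)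
    have h4 : (fun w => Th j (1 : M w) (R w)) = R := by
      funext w
      unfold Th
      rw [one_smul, update_eq_self]
    rw [h4] at h3
    refine ih ?_ h3
    have h5 := Fn_Th (t := fun a => τ (t a)) j c p
    rw [hp, mul_zero] at h5
    exact h5

end Pool.Agent.T6.H77.VN
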