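import Pool.Agent.T6.H77.VN.Stm
import Pool.Agent.T6.H77.RK.COTW

/-!
# Points on a conic outside a tangent line (module CO, helper54)
-/

set_option autoImplicit false

namespace Pool.Agent.T6.H77.VN.CO

open Function

variable {J k : Type} [Fintype J] [DecidableEq J]

/-- the factor at `j` taken out of the product -/
theorem PB_upd {R : Type} [CommRing R] (t : Tm J R) (j : J) (x y : J → Fin 3 → R)
    (z z' : Fin 3 → R) : PB t (update x j z) (update y j z') =
      ∑ a, (t a * ∏ l ∈ Finset.univ.erase j, (x l (a l).1 * y l (a l).2)) *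
        (z (a j).1 * z' (a j).2) := by
  unfold PB
  refine Finset.sum_congr rfl fun a _ => ?_
  rw [← Finset.mul_prod_erase Finset.univ _ (Finset.mem_univ j)]
  have h : ∏ l ∈ Finset.univ.erase j, (update x j z l (a l).1 * update y j z' l (a l).2) =
      ∏ l ∈ Finset.univ.erase j, (x l (a l).1 * y l (a l).2) := by
    refine Finset.prod_congr rfl fun l hl => ?_
    have hlj : l ≠ j := Finset.ne_of_mem_erase hl
    rw [update_of_ne hlj, update_of_ne hlj]
  rw [h, update_self, update_self]
  ring

theorem single_sum {R : Type} [CommRing R] (p q : Fin 3) (z z' : Fin 3 → R) :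
    ∑ a, ∑ b, ((Pi.single a (1 : R) : Fin 3 → R) p * (Pi.single b (1 : R) : Fin 3 → R) q) *
      z a * z' b = z p * z' q := by
  rw [Finset.sum_eq_single p]
  · rw [Finset.sum_eq_single q]
    · simp
    · intro b _ hb
      rw [Pi.single_eq_of_ne hb.symm]
      ring
    · intro h
      exact absurd (Finset.mem_univ q) h
  · intro a _ ha
    refine Finset.sum_eq_zero fun b _ => ?_
    rw [Pi.single_eq_of_ne ha.symm]
    ring
  · intro h
    exact absurd (Finset.mem_univ p) h

theorem pj_bl [Field k] (t : Tm J k) (j : J) (x : J → Fin 3 → k) (z z' : Fin 3 → k) :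
    pj t j x z z' = RK.COTW.bl (dj t j x) z z' := by
  have h : ∀ a b, dj t j x a b = ∑ c, (t c * ∏ l ∈ Finset.univ.erase j,
      (x l (c l).1 * x l (c l).2)) * ((Pi.single a (1 : k) : Fin 3 → k) (c j).1 *
        (Pi.single b (1 : k) : Fin 3 → k) (c j).2) := by
    intro a b
    rw [dj, Matrix.of_apply, pj, PB_upd]
  unfold RK.COTW.bl
  simp only [h]
  rw [pj, PB_upd]
  simp only [Finset.sum_mul]
  have e : ∑ a, ∑ b, ∑ c, (t c * ∏ l ∈ Finset.univ.erase j,
      (x l (c l).1 * x l (c l).2)) * ((Pi.single a (1 : k) : Fin 3 → k) (c j).1 *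
        (Pi.single b (1 : k) : Fin 3 → k) (c j).2) * z a * z' b =
      ∑ c, (t c * ∏ l ∈ Finset.univ.erase j, (x l (c l).1 * x l (c l).2)) *
        ∑ a, ∑ b, ((Pi.single a (1 : k) : Fin 3 → k) (c j).1 *
          (Pi.single b (1 : k) : Fin 3 → k) (c j).2) * z a * z' b := by
    simp only [Finset.mul_sum]
    rw [Finset.sum_comm' (t' := Finset.univ) (s' := fun _ => Finset.univ) (by simp)]
    rw [Finset.sum_congr rfl fun b _ => Finset.sum_comm]
    rw [Finset.sum_comm]
    refine Finset.sum_congr rfl fun c _ => ?_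
    rw [Finset.sum_comm]
    refine Finset.sum_congr rfl fun a _ => Finset.sum_congr rfl fun b _ => ?_
    ring
  rw [e]
  refine Finset.sum_congr rfl fun c _ => ?_
  rw [single_sum]

omit [Fintype J] in
theorem swap_swap (a : J → Fin 3 × Fin 3) (j : J) :
    update (update a j (a j).swap) j ((update a j (a j).swap) j).swap = a := by
  rw [update_self, Prod.swap_swap, update_idem, update_eq_self]

theorem dj_symm [Field k] (t : Tm J k) (hs : Sn t) (j : J) (x : J → Fin 3 → k) (a b : Fin 3) :
    dj t j x a b = dj t j x b a := by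
  rw [dj, Matrix.of_apply, Matrix.of_apply, pj, pj, PB_upd, PB_upd]
  refine Finset.sum_bij' (fun c _ => update c j (c j).swap) (fun c _ => update c j (c j).swap)
    (fun _ _ => Finset.mem_univ _) (fun _ _ => Finset.mem_univ _)
    (fun c _ => swap_swap c j) (fun c _ => swap_swap c j) fun c _ => ?_
  rw [hs c j, update_self]
  have h : ∏ l ∈ Finset.univ.erase j, (x l (update c j (c j).swap l).1 *
      x l (update c j (c j).swap l).2) =
      ∏ l ∈ Finset.univ.erase j, (x l (c l).1 * x l (c l).2) := by
    refine Finset.prod_congr rfl fun l hl => ?_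
    have hlj : l ≠ j := Finset.ne_of_mem_erase hl
    rw [update_of_ne hlj]
  rw [h]
  simp only [Prod.fst_swap, Prod.snd_swap]
  ring

theorem Fn_upd [Field k] (t : Tm J k) (j : J) (x : J → Fin 3 → k) (z : Fin 3 → k) :
    Fn t (update x j z) = RK.COTW.bl (dj t j x) z z := by
  rw [← pj_bl]
  rfl

end Pool.Agent.T6.H77.VN.CO

namespace Pool.Agent.T6.H77.VN

open Function

/-- CO: points on a conic outside the tangent line at one of them -/
theorem co : StmCO := by
  intro J k _ _ _ _ t h2 hs j x hx hl
  have hx' : RK.COTW.bl (dj t j x) (x j) (x j) = 0 := by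
    rw [← CO.Fn_upd, update_eq_self]
    exact hx
  simp only [CO.pj_bl] at hl ⊢
  simp only [CO.Fn_upd]
  exact RK.COTW.co_aux (dj t j x) (CO.dj_symm t hs j x) h2 (x j) hx' hl

end Pool.Agent.T6.H77.VN
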