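import Pool.Agent.T6.H77.VN.BAS

/-!
# The points with smooth conics only are dense (helper95 for helper77)
-/

set_option autoImplicit false

namespace Pool.Agent.T6.H77.VN

open Function

namespace DEN

theorem pol3 {L : Type} [Field L] (a b c d e f p q r : L)
    (h1 : a * q ^ 2 - 2 * b * q * p + d * p ^ 2 = 0)
    (h2 : a * q * r - b * p * r - c * p * q + e * p ^ 2 = 0)
    (h3 : a * r ^ 2 - 2 * c * r * p + f * p ^ 2 = 0) :
    p ^ 4 * (a * (d * f - e ^ 2) - b * (b * f - e * c) + c * (b * e - d * c)) = 0 := by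
  linear_combination (a * (a * r ^ 2 - 2 * c * r * p + f * p ^ 2) - (c * p - a * r) ^ 2) * h1 +
    (2 * (b * p - a * q) * (c * p - a * r) -
      a * (a * q * r - b * p * r - c * p * q + e * p ^ 2)) * h2 - (b * p - a * q) ^ 2 * h3

/-- a nondegenerate symmetric matrix of size 3 is not totally isotropic on a plane -/
theorem isot {L : Type} [Field L] (h2 : (2 : L) ≠ 0) (M : Matrix (Fin 3) (Fin 3) L)
    (hM : ∀ a b, M a b = M b a) (hdet : M.det ≠ 0) (w : Fin 3 → L) :
    ∃ u : Fin 3 → L, (∑ a, ∑ b, M a b * w a * u b = 0) ∧ ∑ a, ∑ b, M a b * u a * u b ≠ 0 := by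
  by_contra hcon
  push Not at hcon
  apply hdet
  set l : Fin 3 → L := fun b => ∑ a, M a b * w a with hl
  have e1 : ∀ u : Fin 3 → L, ∑ a, ∑ b, M a b * w a * u b = ∑ b, l b * u b := by
    intro u
    rw [Finset.sum_comm]
    refine Finset.sum_congr rfl fun b _ => ?_
    rw [hl, Finset.sum_mul]
  have e2 : ∀ u : Fin 3 → L, ∑ b, l b * u b = 0 → ∑ a, ∑ b, M a b * u a * u b = 0 := fun u hu =>
    hcon u (by rw [e1]; exact hu)
  have s1 := hM 0 1
  have s2 := hM 0 2
  have s3 := hM 1 2
  have e3 : ∀ u v : Fin 3 → L, ∑ b, l b * u b = 0 → ∑ b, l b * v b = 0 →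
      ∑ a, ∑ b, M a b * u a * v b = 0 := by
    intro u v hu hv
    have k1 := e2 (u + v) (by
      simp only [Pi.add_apply, mul_add, Finset.sum_add_distrib, hu, hv, add_zero])
    have k2 := e2 u hu
    have k3 := e2 v hv
    simp only [Fin.sum_univ_three, Pi.add_apply] at k1 k2 k3 ⊢
    have : 2 * (M 0 0 * u 0 * v 0 + M 0 1 * u 0 * v 1 + M 0 2 * u 0 * v 2 +
        (M 1 0 * u 1 * v 0 + M 1 1 * u 1 * v 1 + M 1 2 * u 1 * v 2) +
        (M 2 0 * u 2 * v 0 + M 2 1 * u 2 * v 1 + M 2 2 * u 2 * v 2)) = 0 := by
      rw [← s1, ← s2, ← s3] at k1 k2 k3 ⊢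
      linear_combination k1 - k2 - k3
    exact (mul_eq_zero.1 this).resolve_left h2
  by_cases hl0 : ∀ b, l b = 0
  · have : M = 0 := by
      ext a b
      have := e3 (Pi.single a 1) (Pi.single b 1) (by simp [hl0]) (by simp [hl0])
      simpa [Pi.single_apply] using this
    rw [this]
    simp
  · push Not at hl0
    obtain ⟨i, hi⟩ := hl0
    have key : (l i) ^ 4 * M.det = 0 := by
      rw [Matrix.det_fin_three, ← s1, ← s2, ← s3]
      fin_cases i
      · have a1 := e3 ![-l 1, l 0, 0] ![-l 1, l 0, 0] (by simp [Fin.sum_univ_three]; ring)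
          (by simp [Fin.sum_univ_three]; ring)
        have a2 := e3 ![-l 1, l 0, 0] ![-l 2, 0, l 0] (by simp [Fin.sum_univ_three]; ring)
          (by simp [Fin.sum_univ_three]; ring)
        have a3 := e3 ![-l 2, 0, l 0] ![-l 2, 0, l 0] (by simp [Fin.sum_univ_three]; ring)
          (by simp [Fin.sum_univ_three]; ring)
        simp only [Fin.sum_univ_three, Matrix.cons_val_zero, Matrix.cons_val_one,
          Matrix.cons_val, ← s1, ← s2, ← s3] at a1 a2 a3
        have := pol3 (M 0 0) (M 0 1) (M 0 2) (M 1 1) (M 1 2) (M 2 2) (l 0) (l 1) (l 2)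
          (by linear_combination a1) (by linear_combination a2) (by linear_combination a3)
        show (l 0) ^ 4 * _ = 0
        linear_combination this
      · have a1 := e3 ![l 1, -l 0, 0] ![l 1, -l 0, 0] (by simp [Fin.sum_univ_three]; ring)
          (by simp [Fin.sum_univ_three]; ring)
        have a2 := e3 ![l 1, -l 0, 0] ![0, -l 2, l 1] (by simp [Fin.sum_univ_three]; ring)
          (by simp [Fin.sum_univ_three]; ring)
        have a3 := e3 ![0, -l 2, l 1] ![0, -l 2, l 1] (by simp [Fin.sum_univ_three]; ring)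
          (by simp [Fin.sum_univ_three]; ring)
        simp only [Fin.sum_univ_three, Matrix.cons_val_zero, Matrix.cons_val_one,
          Matrix.cons_val, ← s1, ← s2, ← s3] at a1 a2 a3
        have := pol3 (M 1 1) (M 0 1) (M 1 2) (M 0 0) (M 0 2) (M 2 2) (l 1) (l 0) (l 2)
          (by linear_combination a1) (by linear_combination a2) (by linear_combination a3)
        show (l 1) ^ 4 * _ = 0
        linear_combination this
      · have a1 := e3 ![0, l 2, -l 1] ![0, l 2, -l 1] (by simp [Fin.sum_univ_three]; ring)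
          (by simp [Fin.sum_univ_three]; ring)
        have a2 := e3 ![0, l 2, -l 1] ![l 2, 0, -l 0] (by simp [Fin.sum_univ_three]; ring)
          (by simp [Fin.sum_univ_three]; ring)
        have a3 := e3 ![l 2, 0, -l 0] ![l 2, 0, -l 0] (by simp [Fin.sum_univ_three]; ring)
          (by simp [Fin.sum_univ_three]; ring)
        simp only [Fin.sum_univ_three, Matrix.cons_val_zero, Matrix.cons_val_one,
          Matrix.cons_val, ← s1, ← s2, ← s3] at a1 a2 a3
        have := pol3 (M 2 2) (M 1 2) (M 0 2) (M 1 1) (M 0 1) (M 0 0) (l 2) (l 1) (l 0)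
          (by linear_combination a1) (by linear_combination a2) (by linear_combination a3)
        show (l 2) ^ 4 * _ = 0
        linear_combination this
    exact (mul_eq_zero.1 key).resolve_left (pow_ne_zero _ hi)

section ring

variable {J R S : Type} [Fintype J] [DecidableEq J] [CommRing R] [CommRing S]

/-- the product of the discriminants -/
def DD (t : Tm J R) (x : J → Fin 3 → R) : R := ∏ j, (dj t j x).det

/-- the moved point -/
def rho (t : Tm J R) (j : J) (c : R) (x : J → Fin 3 → R) (u : Fin 3 → R) : J → Fin 3 → R :=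
  update x j (c • (Fn t (update x j u) • x j + (-(2 * pj t j x (x j) u)) • u))

theorem DD_map (s : R →+* S) (t : Tm J R) (x : J → Fin 3 → R) :
    s (DD t x) = DD (fun a => s (t a)) (fun l c => s (x l c)) := by
  unfold DD
  rw [map_prod]
  exact Finset.prod_congr rfl fun j _ => dj_map s t j x

theorem rho_map (s : R →+* S) (t : Tm J R) (j : J) (c : R) (x : J → Fin 3 → R)
    (u : Fin 3 → R) : (fun l i => s (rho t j c x u l i)) =
    rho (fun a => s (t a)) j (s c) (fun l i => s (x l i)) (fun i => s (u i)) := by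
  unfold rho
  rw [upd_map]
  congr 1
  funext i
  simp only [Pi.smul_apply, Pi.add_apply, smul_eq_mul, map_mul, map_add, map_neg, Fn_map, pj_map,
    upd_map, map_ofNat]

theorem dj_scale (t : Tm J R) {i j : J} (hij : i ≠ j) (x : J → Fin 3 → R) (c : R) :
    dj t i (update x j (c • x j)) = (c * c) • dj t i x := by
  ext a b
  rw [Matrix.smul_apply, smul_eq_mul]
  show PB t (update (update x j (c • x j)) i _) (update (update x j (c • x j)) i _) =
    c * c * PB t (update x i _) (update x i _)
  rw [update_comm hij.symm, update_comm hij.symm, PB_smul1, PB_smul2, ← mul_assoc]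
  have e : ∀ v : Fin 3 → R, update (update x i v) j (x j) = update x i v := by
    intro v
    conv_rhs => rw [← update_eq_self j (update x i v)]
    rw [update_of_ne hij.symm]
  rw [e, e]

end ring

section field

variable {J L : Type} [Fintype J] [DecidableEq J] [Field L]

theorem DD_scale (t : Tm J L) (j : J) (x : J → Fin 3 → L) {c : L} (hc : c ≠ 0)
    (h : DD t (update x j (c • x j)) = 0) : DD t x = 0 := by
  unfold DD at *
  obtain ⟨i, hi, h1⟩ := Finset.prod_eq_zero_iff.1 h
  refine Finset.prod_eq_zero hi ?_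
  by_cases hij : i = j
  · subst hij
    rwa [dj_upd] at h1
  · rw [dj_scale t hij, Matrix.det_smul] at h1
    exact (mul_eq_zero.1 h1).resolve_left (pow_ne_zero _ (mul_ne_zero hc hc))

end field

section top

variable {J L : Type} [Fintype J] [DecidableEq J] [NontriviallyNormedField L]

theorem PB_cont (t : Tm J L) {A : Type} [TopologicalSpace A] {f g : A → J → Fin 3 → L}
    (hf : Continuous f) (hg : Continuous g) : Continuous fun a => PB t (f a) (g a) := by
  unfold PB
  fun_prop

theorem rho_cont (t : Tm J L) (j : J) (c : L) :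
    Continuous fun p : (J → Fin 3 → L) × (Fin 3 → L) => rho t j c p.1 p.2 := by
  unfold rho
  refine Continuous.update continuous_fst j ?_
  have h1 : Continuous fun p : (J → Fin 3 → L) × (Fin 3 → L) => update p.1 j p.2 :=
    Continuous.update continuous_fst j continuous_snd
  have h2 : Continuous fun p : (J → Fin 3 → L) × (Fin 3 → L) => Fn t (update p.1 j p.2) :=
    PB_cont t h1 h1
  have h0 : Continuous fun p : (J → Fin 3 → L) × (Fin 3 → L) => p.1 j := by fun_prop
  have h3 : Continuous fun p : (J → Fin 3 → L) × (Fin 3 → L) => pj t j p.1 (p.1 j) p.2 :=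
    PB_cont t (Continuous.update continuous_fst j h0) h1
  fun_prop

/-- the discriminants vanish near `q` -/
def VV (t : Tm J L) (q : J → Fin 3 → L) : Prop := ∀ᶠ r in nhds q, Fn t r = 0 → DD t r = 0

theorem VV_sc (t : Tm J L) (q : J → Fin 3 → L) (j : J) {c : L} (hc : c ≠ 0) (h : VV t q) :
    VV t (update q j (c • q j)) := by
  have h1 : Continuous fun r : J → Fin 3 → L => update r j (c⁻¹ • r j) :=
    Continuous.update continuous_id j (by fun_prop)
  have h2 : update (update q j (c • q j)) j (c⁻¹ • (update q j (c • q j)) j) = q := by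
    rw [update_self, update_idem, smul_smul, inv_mul_cancel₀ hc, one_smul, update_eq_self]
  have h3 := (h1.tendsto (update q j (c • q j)))
  rw [h2] at h3
  filter_upwards [h3.eventually h] with r hr hF
  refine DD_scale t j r (inv_ne_zero hc) (hr ?_)
  rw [Fn_smul, update_eq_self, hF, mul_zero]

open Polynomial in
theorem line (t : Tm J L) (j : J) (c : L) (x : J → Fin 3 → L) (u₀ : Fin 3 → L)
    (h : ∀ᶠ u in nhds u₀, DD t (rho t j c x u) = 0) (u : Fin 3 → L) :
    DD t (rho t j c x u) = 0 := by
  set P : L[X] := DD (fun a => C (t a)) (rho (fun a => C (t a)) j (C c) (fun l i => C (x l i))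
    (fun i => C (u₀ i) + X * C (u i - u₀ i))) with hP
  have h1 : ∀ s : L, P.eval s = DD t (rho t j c x (fun i => u₀ i + s * (u i - u₀ i))) := by
    intro s
    rw [hP, ← coe_evalRingHom, DD_map, rho_map]
    simp only [coe_evalRingHom, eval_C, eval_add, eval_mul, eval_X]
  have h2 : Continuous fun s : L => fun i : Fin 3 => u₀ i + s * (u i - u₀ i) := by fun_prop
  have h3 := h2.tendsto 0
  have h4 : (fun i : Fin 3 => u₀ i + 0 * (u i - u₀ i)) = u₀ := by
    funext i; ring
  rw [h4] at h3
  have h5 : P = 0 := by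
    refine Polynomial.eq_zero_of_infinite_isRoot P
      ((infinite_of_mem_nhds (0 : L) (h3.eventually h)).mono fun s hs => ?_)
    show P.eval s = 0
    rw [h1]
    exact hs
  have h6 := h1 1
  rw [h5, eval_zero] at h6
  rw [h6]
  congr 2
  funext i
  ring

theorem VV_mv (h2 : (2 : L) ≠ 0) (t : Tm J L) (hs : Sn t) (q : J → Fin 3 → L) (j : J)
    (z : Fin 3 → L) (hq : Fn t q = 0) (hb : pj t j q (q j) z ≠ 0)
    (h : VV t q) : VV t (update q j z) := by
  set b : L := pj t j q (q j) z with hbd
  set c : L := (-(2 * b))⁻¹ with hc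
  have hb2 : -(2 * b) ≠ 0 := neg_ne_zero.2 (mul_ne_zero h2 hb)
  have hc0 : c ≠ 0 := inv_ne_zero hb2
  have e1 : rho t j c (update q j z) (q j) = q := by
    unfold rho
    rw [update_idem, update_idem, update_eq_self, hq, update_self, pj_upd, pj_symm hs, ← hbd,
      zero_smul, zero_add, smul_smul, hc, inv_mul_cancel₀ hb2, one_smul, update_eq_self]
  have h3 := (rho_cont t j c).tendsto (update q j z, q j)
  simp only [e1] at h3
  have h4 := h3.eventually h
  rw [nhds_prod_eq] at h4
  filter_upwards [h4.curry] with r hr hF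
  have h5 : ∀ u, DD t (rho t j c r u) = 0 := by
    refine line t j c r (q j) ?_
    filter_upwards [hr] with u hu
    refine hu ?_
    show Fn t (update r j _) = 0
    rw [Fn_smul, Fn_ref hs j r (by rw [update_eq_self]; exact hF), mul_zero]
  by_cases hdet : (dj t j r).det = 0
  · exact Finset.prod_eq_zero (Finset.mem_univ j) hdet
  · obtain ⟨u, hu1, hu2⟩ := isot h2 (dj t j r) (dj_symm hs j r) hdet (r j)
    rw [← pj_dj] at hu1
    rw [← Fn_dj] at hu2
    have h6 := h5 u
    have e2 : rho t j c r u = update r j ((c * Fn t (update r j u)) • r j) := by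
      unfold rho
      rw [hu1, mul_zero, neg_zero, zero_smul, add_zero, smul_smul]
    rw [e2] at h6
    exact DD_scale t j r (mul_ne_zero hc0 hu2) h6

end top

end DEN

open DEN in
theorem den : StmDEN := by
  intro J L _ _ _ h2 t hs hE p₀ hp0 hF0 hd0 p hp hF ε hε
  by_contra hcon
  push Not at hcon
  have V0 : VV t p := by
    have n1 : ∀ᶠ r in nhds p, ∀ l, r l ≠ 0 := by
      refine Filter.eventually_all.2 fun l => ?_
      have : ContinuousAt (fun r : J → Fin 3 → L => r l) p := (continuous_apply l).continuousAt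
      exact this.eventually_ne (hp l)
    have n2 : ∀ᶠ r in nhds p, ∀ l c, ‖r l c - p l c‖ < ε := by
      refine Filter.eventually_all.2 fun l => Filter.eventually_all.2 fun c => ?_
      have h3 : Continuous fun r : J → Fin 3 → L => ‖r l c - p l c‖ := by fun_prop
      have h4 := h3.continuousAt (x := p)
      refine h4.eventually_lt continuousAt_const ?_
      simpa using hε
    filter_upwards [n1, n2] with r r1 r2 rF
    by_contra hD
    have h3 : ∀ j, (dj t j r).det ≠ 0 := by
      intro j hj
      exact hD (Finset.prod_eq_zero (Finset.mem_univ j) hj)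
    obtain ⟨l, c, hlc⟩ := hcon r r1 rF h3
    exact absurd (r2 l c) (not_lt.2 hlc)
  have main : ∀ x, E t p x → (∀ l, x l ≠ 0) ∧ Fn t x = 0 ∧ VV t x := by
    intro x hx
    induction hx with
    | refl => exact ⟨hp, hF, V0⟩
    | tail _ hst ih =>
      obtain ⟨i1, i2, i3⟩ := ih
      cases hst with
      | mv j z h h' =>
        refine ⟨fun l => ?_, h, VV_mv h2 t hs _ j z i2 h' i3⟩
        by_cases hl : l = j
        · subst hl
          rw [update_self]
          intro hz
          rw [hz, pj_zero_r] at h'
          exact h' rfl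
        · rw [update_of_ne hl]
          exact i1 l
      | sc j c hc =>
        refine ⟨fun l => ?_, ?_, VV_sc t _ j hc i3⟩
        · by_cases hl : l = j
          · subst hl
            rw [update_self]
            exact smul_ne_zero hc (i1 _)
          · rw [update_of_ne hl]
            exact i1 l
        · rw [Fn_smul, update_eq_self, i2, mul_zero]
  obtain ⟨_, _, m3⟩ := main p₀ (hE p p₀ hp hF hp0 hF0)
  have m4 := m3.self_of_nhds hF0
  obtain ⟨j, _, hj⟩ := Finset.prod_eq_zero_iff.1 m4
  exact hd0 j hj

end Pool.Agent.T6.H77.VN
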