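import Pool.Agent.T6.H77.VN.Stm

/-!
# Hypersurfaces of multidegree (2, ..., 2): a move to a good slice (helper38)
-/

set_option autoImplicit false

namespace Pool.Agent.T6.H77.VN

open Function

namespace ESC

section ring

variable {J R : Type} [Fintype J] [DecidableEq J] [CommRing R]

/-- the factor of `x_j` in a product -/
lemma pj_eq (t : Tm J R) (j : J) (x : J → Fin 3 → R) (z z' : Fin 3 → R) :
    pj t j x z z' = ∑ a, t a * (z (a j).1 * z' (a j).2 *
      ∏ l ∈ Finset.univ.erase j, (x l (a l).1 * x l (a l).2)) := by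
  unfold pj PB
  refine Finset.sum_congr rfl fun a _ => ?_
  congr 1
  rw [← Finset.mul_prod_erase Finset.univ _ (Finset.mem_univ j)]
  congr 1
  · simp
  · refine Finset.prod_congr rfl fun l hl => ?_
    have hlj : l ≠ j := (Finset.mem_erase.1 hl).1
    rw [update_of_ne hlj, update_of_ne hlj]

lemma pj_symm (t : Tm J R) (hs : Sn t) (j : J) (x : J → Fin 3 → R) (z z' : Fin 3 → R) :
    pj t j x z z' = pj t j x z' z := by
  rw [pj_eq, pj_eq]
  have hinv : Involutive (fun a : J → Fin 3 × Fin 3 => update a j (a j).swap) := by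
    intro a
    simp
  obtain ⟨e, he⟩ : ∃ e : Equiv.Perm (J → Fin 3 × Fin 3), ∀ a, e a = update a j (a j).swap :=
    ⟨Function.Involutive.toPerm _ hinv, fun a => rfl⟩
  rw [← Equiv.sum_comp e]
  refine Finset.sum_congr rfl fun a _ => ?_
  have h3 : ∏ l ∈ Finset.univ.erase j, (x l ((e a) l).1 * x l ((e a) l).2) =
      ∏ l ∈ Finset.univ.erase j, (x l (a l).1 * x l (a l).2) := by
    refine Finset.prod_congr rfl fun l hl => ?_
    have hlj : l ≠ j := (Finset.mem_erase.1 hl).1
    rw [he, update_of_ne hlj]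
  rw [h3, he, hs a j, update_self]
  simp only [Prod.fst_swap, Prod.snd_swap]
  ring

lemma Fn_add (t : Tm J R) (hs : Sn t) (j : J) (x : J → Fin 3 → R) (z u : Fin 3 → R) :
    Fn t (update x j (z + u)) = Fn t (update x j z) + 2 * pj t j x z u +
      Fn t (update x j u) := by
  have e : ∀ v : Fin 3 → R, Fn t (update x j v) = pj t j x v v := fun v => rfl
  have h1 : pj t j x (z + u) (z + u) = pj t j x z z + pj t j x z u + pj t j x u z +
      pj t j x u u := by
    rw [pj_eq, pj_eq, pj_eq, pj_eq, pj_eq, ← Finset.sum_add_distrib, ← Finset.sum_add_distrib,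
      ← Finset.sum_add_distrib]
    refine Finset.sum_congr rfl fun a _ => ?_
    simp only [Pi.add_apply]
    ring
  rw [e, e, e, h1, pj_symm t hs j x u z]
  ring

lemma pj_dj (t : Tm J R) (j : J) (x : J → Fin 3 → R) (z z' : Fin 3 → R) :
    pj t j x z z' = ∑ a, ∑ b, dj t j x a b * z a * z' b := by
  have e : ∀ a b, dj t j x a b = pj t j x (Pi.single a 1) (Pi.single b 1) := fun a b => rfl
  rw [pj_eq]
  have h1 : ∀ a b, dj t j x a b * z a * z' b = ∑ i : J → Fin 3 × Fin 3,
      t i * ((Pi.single a (1 : R) : Fin 3 → R) (i j).1 * (Pi.single b (1 : R) : Fin 3 → R) (i j).2 *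
      ∏ l ∈ Finset.univ.erase j, (x l (i l).1 * x l (i l).2)) * z a * z' b := by
    intro a b
    rw [e, pj_eq, Finset.sum_mul, Finset.sum_mul]
  simp only [h1]
  rw [Finset.sum_congr rfl fun a _ => Finset.sum_comm, Finset.sum_comm]
  refine Finset.sum_congr rfl fun i _ => ?_
  symm
  rw [Finset.sum_eq_single (i j).1, Finset.sum_eq_single (i j).2]
  · simp
    ring
  · intro b _ hb
    simp [Pi.single_apply, Ne.symm hb]
  · simp
  · intro a _ ha
    refine Finset.sum_eq_zero fun b _ => ?_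
    simp [Pi.single_apply, Ne.symm ha]
  · simp

end ring

section red

variable {L k : Type} [NormedField L] [IsUltrametricDist L] [Field k] {π : L → k}

lemma pi_zero (h : DW.Res π) : π 0 = 0 := (h.ker 0 (by simp)).2 (by simp)

lemma le_sum {ι : Type} (s : Finset ι) (f : ι → L) (hf : ∀ i ∈ s, ‖f i‖ ≤ 1) :
    ‖∑ i ∈ s, f i‖ ≤ 1 := by
  classical
  induction s using Finset.induction_on with
  | empty => simp
  | insert i s hi ih =>
    rw [Finset.sum_insert hi]
    refine (IsUltrametricDist.norm_add_le_max _ _).trans ?_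
    exact max_le (hf i (Finset.mem_insert_self i s))
      (ih fun l hl => hf l (Finset.mem_insert_of_mem hl))

lemma le_prod {ι : Type} (s : Finset ι) (f : ι → L) (hf : ∀ i ∈ s, ‖f i‖ ≤ 1) :
    ‖∏ i ∈ s, f i‖ ≤ 1 := by
  rw [norm_prod]
  exact Finset.prod_le_one (fun i _ => norm_nonneg _) hf

lemma pi_sum (h : DW.Res π) {ι : Type} (s : Finset ι) (f : ι → L) (hf : ∀ i ∈ s, ‖f i‖ ≤ 1) :
    π (∑ i ∈ s, f i) = ∑ i ∈ s, π (f i) := by
  classical
  induction s using Finset.induction_on with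
  | empty => simp [pi_zero h]
  | insert i s hi ih =>
    rw [Finset.sum_insert hi, Finset.sum_insert hi, h.add _ _ (hf i (Finset.mem_insert_self i s))
      (le_sum s f fun l hl => hf l (Finset.mem_insert_of_mem hl)),
      ih fun l hl => hf l (Finset.mem_insert_of_mem hl)]

lemma pi_prod (h : DW.Res π) {ι : Type} (s : Finset ι) (f : ι → L) (hf : ∀ i ∈ s, ‖f i‖ ≤ 1) :
    π (∏ i ∈ s, f i) = ∏ i ∈ s, π (f i) := by
  classical
  induction s using Finset.induction_on with
  | empty => simp [h.one]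
  | insert i s hi ih =>
    rw [Finset.prod_insert hi, Finset.prod_insert hi, h.mul _ _ (hf i (Finset.mem_insert_self i s))
      (le_prod s f fun l hl => hf l (Finset.mem_insert_of_mem hl)),
      ih fun l hl => hf l (Finset.mem_insert_of_mem hl)]

lemma mul_le {a b : L} (ha : ‖a‖ ≤ 1) (hb : ‖b‖ ≤ 1) : ‖a * b‖ ≤ 1 := by
  rw [norm_mul]
  exact mul_le_one₀ ha (norm_nonneg _) hb

variable {J : Type} [Fintype J] [DecidableEq J]

lemma PB_red (h : DW.Res π) (t : Tm J L) (ht : ∀ a, ‖t a‖ ≤ 1) (x y : J → Fin 3 → L)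
    (hx : ∀ l c, ‖x l c‖ ≤ 1) (hy : ∀ l c, ‖y l c‖ ≤ 1) :
    π (PB t x y) = PB (fun a => π (t a)) (fun l c => π (x l c)) (fun l c => π (y l c)) := by
  unfold PB
  rw [pi_sum h]
  · refine Finset.sum_congr rfl fun a _ => ?_
    rw [h.mul _ _ (ht a) (le_prod _ _ fun l _ => mul_le (hx _ _) (hy _ _)),
      pi_prod h _ _ fun l _ => mul_le (hx _ _) (hy _ _)]
    congr 1
    exact Finset.prod_congr rfl fun l _ => h.mul _ _ (hx _ _) (hy _ _)
  · intro a _
    exact mul_le (ht a) (le_prod _ _ fun l _ => mul_le (hx _ _) (hy _ _))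

lemma upd_red (x : J → Fin 3 → L) (j : J) (z : Fin 3 → L) :
    (fun l c => π (update x j z l c)) = update (fun l c => π (x l c)) j (fun c => π (z c)) := by
  funext l c
  by_cases hl : l = j
  · subst hl
    simp
  · simp [update_of_ne hl]

lemma upd_le (x : J → Fin 3 → L) (hx : ∀ l c, ‖x l c‖ ≤ 1) (j : J) (z : Fin 3 → L)
    (hz : ∀ c, ‖z c‖ ≤ 1) : ∀ l c, ‖update x j z l c‖ ≤ 1 := by
  intro l c
  by_cases hl : l = j
  · subst hl
    simpa using hz c
  · simpa [update_of_ne hl] using hx l c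

lemma pj_red (h : DW.Res π) (t : Tm J L) (ht : ∀ a, ‖t a‖ ≤ 1) (j : J) (x : J → Fin 3 → L)
    (hx : ∀ l c, ‖x l c‖ ≤ 1) (z z' : Fin 3 → L) (hz : ∀ c, ‖z c‖ ≤ 1) (hz' : ∀ c, ‖z' c‖ ≤ 1) :
    π (pj t j x z z') = pj (fun a => π (t a)) j (fun l c => π (x l c)) (fun c => π (z c))
      (fun c => π (z' c)) := by
  unfold pj
  rw [PB_red h t ht _ _ (upd_le x hx j z hz) (upd_le x hx j z' hz'), upd_red, upd_red]

end red

end ESC

open ESC in
theorem esc (hC : StmCO) (hL : StmLFT) (hN : StmNRM) : StmESC := by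
  intro N m
  refine ⟨N + 3, ?_⟩
  intro J L k _ _ _ _ _ _ _ π hπ hq h2 t hs ht A x hx hG p hp
  obtain ⟨p', hE, hp', hprim⟩ := hN J L k π hπ t A x p hp
  obtain ⟨hpx, hp0, hpF⟩ := hp'
  have hint : ∀ l c, ‖p' l c‖ ≤ 1 := by
    intro l c
    by_cases hl : l ∈ A
    · exact (hprim l hl).1 c
    · rw [hpx l hl]
      exact hx l c
  have hsb : Sn (fun a => π (t a)) := by
    intro a j
    show π _ = π _
    rw [hs a j]
  have hFb : Fn (fun a => π (t a)) (fun l c => π (p' l c)) = 0 := by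
    unfold Fn
    rw [← PB_red hπ t ht p' p' hint hint]
    have : PB t p' p' = 0 := hpF
    rw [this, pi_zero hπ]
  obtain ⟨hG1, hG2⟩ := hG
  obtain ⟨j, hj, z0, hz0⟩ := hG1 (fun l c => π (p' l c))
    (fun l hl => by
      show (fun c => π (p' l c)) = fun c => π (x l c)
      rw [hpx l hl])
    (fun l hl h0 => by
      obtain ⟨c, hc⟩ := (hprim l hl).2
      exact hc (congrFun h0 c)) hFb
  have hco := hC J k (fun a => π (t a)) h2 hsb j (fun l c => π (p' l c)) hFb ⟨z0, hz0⟩
  have hdj : ∀ z : Fin 3 → k, ∑ a, ∑ b, dj (fun a => π (t a)) j (fun l c => π (p' l c)) a b *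
      z a * z b = Fn (fun a => π (t a)) (update (fun l c => π (p' l c)) j z) := by
    intro z
    rw [← pj_dj]
    rfl
  have hne : ∃ z : Fin 3 → k, ∑ a, ∑ b, dj (fun a => π (t a)) j (fun l c => π (p' l c)) a b *
      z a * z b ≠ 0 := by
    by_contra hcon
    push Not at hcon
    simp only [hdj] at hcon
    have h3 := Fn_add (fun a => π (t a)) hsb j (fun l c => π (p' l c))
      (fun c => π (p' j c)) z0
    rw [hcon, hcon, hcon] at h3
    have h4 : (2 : k) * pj (fun a => π (t a)) j (fun l c => π (p' l c))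
        (fun c => π (p' j c)) z0 = 0 := by
      linear_combination -h3
    rcases mul_eq_zero.1 h4 with h5 | h5
    · exact h2 h5
    · exact hz0 h5
  have hth := hG2 j hj (fun a b => dj (fun a => π (t a)) j (fun l c => π (p' l c)) a b) hne
  obtain ⟨zb, hzS, hzT⟩ : ∃ zb : Fin 3 → k,
      (Fn (fun a => π (t a)) (update (fun l c => π (p' l c)) j zb) = 0 ∧
        pj (fun a => π (t a)) j (fun l c => π (p' l c)) (fun c => π (p' j c)) zb ≠ 0) ∧
      Gn N (fun a => π (t a)) m (A.erase j) (update (fun l c => π (x l c)) j zb) := by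
    by_contra hcon
    push Not at hcon
    have hsub : {z | Fn (fun a => π (t a)) (update (fun l c => π (p' l c)) j z) = 0 ∧
        pj (fun a => π (t a)) j (fun l c => π (p' l c)) ((fun l c => π (p' l c)) j) z ≠ 0} ⊆
        {z : Fin 3 → k | ∑ a, ∑ b, dj (fun a => π (t a)) j (fun l c => π (p' l c)) a b *
          z a * z b = 0 ∧ ¬ Gn N (fun a => π (t a)) m (A.erase j)
          (update (fun l c => π (x l c)) j z)} := by
      intro z hz
      refine ⟨?_, hcon z hz⟩
      rw [hdj]
      exact hz.1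
    have hcard := Set.ncard_le_ncard hsub (Set.toFinite _)
    have h6 : Fintype.card k ^ 2 ≤ N * Fintype.card k + Fintype.card k := by
      refine hco.trans ?_
      exact Nat.add_le_add_right (hcard.trans hth) _
    have h7 : (N + 3) * Fintype.card k ≤ Fintype.card k ^ 2 := by
      rw [sq]
      exact Nat.mul_le_mul_right _ hq
    have h8 : 0 < Fintype.card k := Fintype.card_pos
    nlinarith
  have hsm : ∃ z', pj (fun a => π (t a)) j (fun l c => π (p' l c)) zb z' ≠ 0 := by
    refine ⟨fun c => π (p' j c), ?_⟩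
    rw [pj_symm _ hsb]
    exact hzS.2
  obtain ⟨y, hy1, hy2, hy3⟩ := hL J L k π hπ h2 t hs ht p' j zb hint hzS.1 hsm
  have hyz : (fun c => π (y c)) = zb := funext hy2
  refine ⟨j, hj, y, hy1, ?_, update p' j y, ?_, ?_, ?_, ?_⟩
  · rw [upd_red, hyz]
    exact hzT
  · refine Relation.ReflTransGen.tail hE (Stp.mv j y hy3 ?_)
    intro h0
    apply hzS.2
    have h9 := pj_red hπ t ht j p' hint (p' j) y (hint j) hy1
    rw [h0, pi_zero hπ, hyz] at h9
    exact h9.symm
  · intro l hl
    by_cases hlj : l = j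
    · subst hlj
      simp
    · rw [update_of_ne hlj, update_of_ne hlj]
      exact hpx l fun hlA => hl (Finset.mem_erase.2 ⟨hlj, hlA⟩)
  · intro l hl
    obtain ⟨hlj, hlA⟩ := Finset.mem_erase.1 hl
    rw [update_of_ne hlj]
    exact hp0 l hlA
  · exact hy3

end Pool.Agent.T6.H77.VN
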