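import Pool.Agent.T6.H77.VN.BAS

/-!
# Hypersurfaces of multidegree (2, ..., 2): all points of a good slice are joined (helper77)
-/

set_option autoImplicit false

namespace Pool.Agent.T6.H77.VN

open Function

theorem ind (hLB : StmLB) (hE : StmESC) (hM : StmMEET) : StmIND := by
  classical
  intro N m
  induction m with
  | zero =>
    obtain ⟨q₀, h⟩ := hLB
    refine ⟨q₀, ?_⟩
    intro J L k _ _ _ _ _ _ _ π hπ hq h2 t hs ht A x hA hx hG p q hp hq'
    obtain ⟨-, i, j, hij, hAij, hGd⟩ := hG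
    subst hAij
    exact h J L k π hπ hq t hs ht i j hij x hx hGd p q hp hq'
  | succ m ih =>
    obtain ⟨q₁, ih⟩ := ih
    obtain ⟨q₂, hE⟩ := hE N m
    obtain ⟨q₃, hM⟩ := hM N m
    refine ⟨max q₁ (max q₂ q₃), ?_⟩
    intro J L k _ _ _ _ _ _ _ π hπ hq h2 t hs ht A x hA hx hG p q hp hq'
    have hq1 : q₁ ≤ Fintype.card k := (le_max_left _ _).trans hq
    have hq2 : q₂ ≤ Fintype.card k := ((le_max_left _ _).trans (le_max_right _ _)).trans hq
    have hq3 : q₃ ≤ Fintype.card k := ((le_max_right _ _).trans (le_max_right _ _)).trans hq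
    have hsl : ∀ j ∈ A, ∀ z : Fin 3 → L, (∀ c, ‖z c‖ ≤ 1) →
        Gn N (fun a => π (t a)) m (A.erase j) (fun l c => π (update x j z l c)) →
        ∀ r r', Pa t (A.erase j) (update x j z) r → Pa t (A.erase j) (update x j z) r' →
        E t r r' := by
      intro j hj z hz hg r r' hr hr'
      refine ih J L k π hπ hq1 h2 t hs ht (A.erase j) (update x j z) ?_ (upd_le hx j hz) hg r r'
        hr hr'
      rw [Finset.card_erase_of_mem hj, hA]
      rfl
    have same : ∀ j ∈ A, ∀ z z' : Fin 3 → L, (∀ c, ‖z c‖ ≤ 1) → (∀ c, ‖z' c‖ ≤ 1) →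
        Gn N (fun a => π (t a)) m (A.erase j) (fun l c => π (update x j z l c)) →
        Gn N (fun a => π (t a)) m (A.erase j) (fun l c => π (update x j z' l c)) →
        ∀ r r', Pa t (A.erase j) (update x j z) r → Pa t (A.erase j) (update x j z') r' →
        E t r r' := by
      intro j hj z z' hz hz' hg hg' r r' hr hr'
      obtain ⟨j', hj', hne⟩ : ∃ j' ∈ A, j' ≠ j := by
        have h1 : 0 < (A.erase j).card := by
          rw [Finset.card_erase_of_mem hj, hA]
          omega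
        obtain ⟨j', hj'⟩ := Finset.card_pos.1 h1
        exact ⟨j', Finset.mem_of_mem_erase hj', Finset.ne_of_mem_erase hj'⟩
      obtain ⟨y, hy, hgy, ⟨r₁, h1, h3⟩, r₂, h4, h5⟩ := hM J L k π hπ hq3 h2 t hs ht A x hA hx hG
        j hj j' hj' hne.symm z z' hz hz' hg hg'
      exact E_trans (hsl j hj z hz hg r r₁ hr h1) (E_trans (hsl j' hj' y hy hgy r₁ r₂ h3 h5)
        (hsl j hj z' hz' hg' r₂ r' h4 hr'))
    obtain ⟨j, hj, z, hz, hg, p₁, e1, hp1⟩ := hE J L k π hπ hq2 h2 t hs ht A x hx hG p hp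
    obtain ⟨j', hj', z', hz', hg', p₂, e2, hp2⟩ := hE J L k π hπ hq2 h2 t hs ht A x hx hG q hq'
    have e3 : E t p₁ p₂ := by
      by_cases hjj : j = j'
      · subst hjj
        exact same j hj z z' hz hz' hg hg' p₁ p₂ hp1 hp2
      · obtain ⟨y, hy, hgy, ⟨r₁, h1, h3⟩, -⟩ := hM J L k π hπ hq3 h2 t hs ht A x hA hx hG
          j hj j' hj' hjj z z hz hz hg hg
        exact E_trans (hsl j hj z hz hg p₁ r₁ hp1 h1)
          (same j' hj' y z' hy hz' hgy hg' r₁ p₂ h3 hp2)
    exact E_trans e1 (E_trans e3 (E_symm hs e2 hq'.2.2))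

end Pool.Agent.T6.H77.VN
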