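import Pool.Agent.T6.H77.VN.Stm
import Pool.Agent.T6.H77.VR.MAIN

/-!
# Hypersurfaces of multidegree (2, ..., 2) in products of planes: two variables (module LB)
-/

set_option autoImplicit false
set_option linter.unusedSectionVars false

namespace Pool.Agent.T6.H77.VN

open Function

namespace LB

section ring

variable {J R : Type} [Fintype J] [DecidableEq J] [CommRing R]

theorem prod_split (j : J) (x y : J → Fin 3 → R) (a : J → Fin 3 × Fin 3) (v v' : Fin 3 → R) :
    ∏ l, (update x j v l (a l).1 * update y j v' l (a l).2) =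
      (v (a j).1 * v' (a j).2) * ∏ l ∈ Finset.univ.erase j, (x l (a l).1 * y l (a l).2) := by
  rw [← Finset.mul_prod_erase Finset.univ _ (Finset.mem_univ j)]
  congr 1
  · rw [update_self, update_self]
  · refine Finset.prod_congr rfl fun l hl => ?_
    rw [update_of_ne (Finset.ne_of_mem_erase hl), update_of_ne (Finset.ne_of_mem_erase hl)]

theorem sum1 (t : Tm J R) (j : J) (x y : J → Fin 3 → R) (z : Fin 3 → R) :
    PB t (update x j z) y = ∑ c, z c * PB t (update x j (Pi.single c 1)) y := by
  unfold PB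
  simp_rw [Finset.mul_sum]
  rw [Finset.sum_comm]
  refine Finset.sum_congr rfl fun a _ => ?_
  have hs : ∀ v : Fin 3 → R, ∏ l, (update x j v l (a l).1 * y l (a l).2) =
      (v (a j).1 * y j (a j).2) * ∏ l ∈ Finset.univ.erase j, (x l (a l).1 * y l (a l).2) := by
    intro v
    have := prod_split j x y a v (y j)
    rwa [update_eq_self] at this
  rw [hs z]
  simp_rw [hs]
  rw [Finset.sum_eq_single (a j).1]
  · rw [Pi.single_eq_same]; ring
  · intro c _ hc
    rw [Pi.single_eq_of_ne hc.symm]; ring
  · intro h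
    exact absurd (Finset.mem_univ _) h

theorem sum2 (t : Tm J R) (j : J) (x y : J → Fin 3 → R) (z : Fin 3 → R) :
    PB t x (update y j z) = ∑ c, z c * PB t x (update y j (Pi.single c 1)) := by
  unfold PB
  simp_rw [Finset.mul_sum]
  rw [Finset.sum_comm]
  refine Finset.sum_congr rfl fun a _ => ?_
  have hs : ∀ v : Fin 3 → R, ∏ l, (x l (a l).1 * update y j v l (a l).2) =
      (x j (a j).1 * v (a j).2) * ∏ l ∈ Finset.univ.erase j, (x l (a l).1 * y l (a l).2) := by
    intro v
    have := prod_split j x y a (x j) v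
    rwa [update_eq_self] at this
  rw [hs z]
  simp_rw [hs]
  rw [Finset.sum_eq_single (a j).2]
  · rw [Pi.single_eq_same]; ring
  · intro c _ hc
    rw [Pi.single_eq_of_ne hc.symm]; ring
  · intro h
    exact absurd (Finset.mem_univ _) h

theorem smul1 (t : Tm J R) (j : J) (x y : J → Fin 3 → R) (c : R) (z : Fin 3 → R) :
    PB t (update x j (c • z)) y = c * PB t (update x j z) y := by
  rw [sum1, sum1 t j x y z, Finset.mul_sum]
  refine Finset.sum_congr rfl fun b _ => ?_
  rw [Pi.smul_apply, smul_eq_mul]; ring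

theorem smul2 (t : Tm J R) (j : J) (x y : J → Fin 3 → R) (c : R) (z : Fin 3 → R) :
    PB t x (update y j (c • z)) = c * PB t x (update y j z) := by
  rw [sum2, sum2 t j x y z, Finset.mul_sum]
  refine Finset.sum_congr rfl fun b _ => ?_
  rw [Pi.smul_apply, smul_eq_mul]; ring

/-- exchange of the two arguments in one variable -/
theorem swap_j {t : Tm J R} (hs : Sn t) (j : J) (x y : J → Fin 3 → R) (z z' : Fin 3 → R) :
    PB t (update x j z) (update y j z') = PB t (update x j z') (update y j z) := by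
  unfold PB
  refine Finset.sum_bij' (fun a _ => update a j (a j).swap) (fun a _ => update a j (a j).swap)
    (fun _ _ => Finset.mem_univ _) (fun _ _ => Finset.mem_univ _) ?_ ?_ ?_
  · intro a _
    simp
  · intro a _
    simp
  · intro a _
    rw [hs a j, prod_split, prod_split]
    congr 2
    · simp [mul_comm]
    · refine Finset.prod_congr rfl fun l hl => ?_
      rw [update_of_ne (Finset.ne_of_mem_erase hl)]

/-- the point given by the coordinates `i` and `j` -/
def up (i j : J) (x : J → Fin 3 → R) (y z : Fin 3 → R) : J → Fin 3 → R :=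
  update (update x i y) j z

theorem up_i {i j : J} (hij : i ≠ j) (x : J → Fin 3 → R) (y z : Fin 3 → R) :
    up i j x y z i = y := by
  unfold up
  rw [update_of_ne hij, update_self]

theorem up_j (i j : J) (x : J → Fin 3 → R) (y z : Fin 3 → R) : up i j x y z j = z := by
  unfold up
  rw [update_self]

theorem up_ui {i j : J} (hij : i ≠ j) (x : J → Fin 3 → R) (y z y' : Fin 3 → R) :
    update (up i j x y z) i y' = up i j x y' z := by
  unfold up
  rw [update_comm hij.symm, update_idem]

theorem up_uj (i j : J) (x : J → Fin 3 → R) (y z z' : Fin 3 → R) :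
    update (up i j x y z) j z' = up i j x y z' := by
  unfold up
  rw [update_idem]

theorem sl_pp (t : Tm J R) {i j : J} (hij : i ≠ j) (x : J → Fin 3 → R) (y y' z z' : Fin 3 → R) :
    VR.pp (sl t i j x) y y' z z' = PB t (up i j x y z) (up i j x y' z') := by
  unfold VR.pp sl
  have e1 : PB t (up i j x y z) (up i j x y' z') =
      ∑ a, y a * PB t (up i j x (Pi.single a 1) z) (up i j x y' z') := by
    rw [← up_ui hij x 0 z y, sum1]
    simp_rw [up_ui hij]
  have e2 : ∀ (a : Fin 3), PB t (up i j x (Pi.single a 1) z) (up i j x y' z') =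
      ∑ b, y' b * PB t (up i j x (Pi.single a 1) z) (up i j x (Pi.single b 1) z') := by
    intro a
    rw [← up_ui hij x 0 z' y', sum2]
    simp_rw [up_ui hij]
  have e3 : ∀ (a b : Fin 3), PB t (up i j x (Pi.single a 1) z) (up i j x (Pi.single b 1) z') =
      ∑ c, z c * PB t (up i j x (Pi.single a 1) (Pi.single c 1))
        (up i j x (Pi.single b 1) z') := by
    intro a b
    rw [← up_uj i j x (Pi.single a 1) 0 z, sum1]
    simp_rw [up_uj]
  have e4 : ∀ (a b c : Fin 3), PB t (up i j x (Pi.single a 1) (Pi.single c 1))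
      (up i j x (Pi.single b 1) z') =
      ∑ d, z' d * PB t (up i j x (Pi.single a 1) (Pi.single c 1))
        (up i j x (Pi.single b 1) (Pi.single d 1)) := by
    intro a b c
    rw [← up_uj i j x (Pi.single b 1) 0 z', sum2]
    simp_rw [up_uj]
  rw [e1]
  refine Finset.sum_congr rfl fun a _ => ?_
  rw [e2, Finset.mul_sum]
  refine Finset.sum_congr rfl fun b _ => ?_
  rw [e3, Finset.mul_sum, Finset.mul_sum]
  refine Finset.sum_congr rfl fun c _ => ?_
  rw [e4, Finset.mul_sum, Finset.mul_sum, Finset.mul_sum]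
  refine Finset.sum_congr rfl fun d _ => ?_
  unfold up
  ring

theorem sl_Sy {t : Tm J R} (hs : Sn t) {i j : J} (hij : i ≠ j) (x : J → Fin 3 → R) :
    VR.Sy (sl t i j x) := by
  constructor
  · intro a b c d
    show PB t (up i j x (Pi.single a 1) (Pi.single c 1))
      (up i j x (Pi.single b 1) (Pi.single d 1)) = PB t (up i j x (Pi.single b 1) (Pi.single c 1))
      (up i j x (Pi.single a 1) (Pi.single d 1))
    rw [← up_ui hij x 0 (Pi.single c 1) (Pi.single a 1),
      ← up_ui hij x 0 (Pi.single d 1) (Pi.single b 1), swap_j hs, up_ui hij, up_ui hij]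
  · intro a b c d
    show PB t (up i j x (Pi.single a 1) (Pi.single c 1))
      (up i j x (Pi.single b 1) (Pi.single d 1)) = PB t (up i j x (Pi.single a 1) (Pi.single d 1))
      (up i j x (Pi.single b 1) (Pi.single c 1))
    rw [← up_uj i j x (Pi.single a 1) 0 (Pi.single c 1),
      ← up_uj i j x (Pi.single b 1) 0 (Pi.single d 1), swap_j hs, up_uj, up_uj]

end ring

section field

variable {J L : Type} [Fintype J] [DecidableEq J] [Field L]

theorem stp_symm {t : Tm J L} (hs : Sn t) {p q : J → Fin 3 → L} (hp : Fn t p = 0)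
    (h : Stp t p q) : Stp t q p ∧ Fn t q = 0 := by
  rcases h with ⟨j, z, h, h'⟩ | ⟨j, c, hc⟩
  · refine ⟨?_, h⟩
    have h1 : Stp t (update p j z) (update (update p j z) j (p j)) := by
      refine Stp.mv j (p j) ?_ ?_
      · rw [update_idem, update_eq_self]
        exact hp
      · unfold pj at h' ⊢
        rw [update_self, update_idem, update_idem, swap_j hs]
        exact h'
    rw [update_idem, update_eq_self] at h1
    exact h1
  · refine ⟨?_, ?_⟩
    · have h1 : Stp t (update p j (c • p j)) (update (update p j (c • p j)) j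
          (c⁻¹ • (update p j (c • p j)) j)) := Stp.sc j c⁻¹ (inv_ne_zero hc)
      rw [update_self, update_idem, smul_smul, inv_mul_cancel₀ hc, one_smul,
        update_eq_self] at h1
      exact h1
    · unfold Fn at hp ⊢
      rw [smul1, smul2, update_eq_self, hp, mul_zero, mul_zero]

theorem E_symm {t : Tm J L} (hs : Sn t) {p q : J → Fin 3 → L} (hp : Fn t p = 0)
    (h : E t p q) : E t q p ∧ Fn t q = 0 := by
  induction h with
  | refl => exact ⟨Relation.ReflTransGen.refl, hp⟩
  | tail _ h2 ih =>
    obtain ⟨h3, h4⟩ := stp_symm hs ih.2 h2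
    exact ⟨Relation.ReflTransGen.head h3 ih.1, h4⟩

/-- chains of moves -/
theorem wd_E {t : Tm J L} {i j : J} (hij : i ≠ j) (x : J → Fin 3 → L) (w : List Bool) :
    ∀ P Q : (Fin 3 → L) × (Fin 3 → L), VR.Wd (sl t i j x) w P Q →
      E t (up i j x P.1 P.2) (up i j x Q.1 Q.2) := by
  induction w with
  | nil =>
    rintro P Q h
    have h' : P = Q := h
    rw [h']
    exact Relation.ReflTransGen.refl
  | cons b w ih =>
    rintro P Q ⟨r, hr, hst, hw⟩
    refine Relation.ReflTransGen.head ?_ (ih r Q hw)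
    have hr' : Fn t (up i j x r.1 r.2) = 0 := by
      unfold Fn
      rw [← sl_pp t hij]
      exact hr
    cases b with
    | true =>
      obtain ⟨h1, h2⟩ : P.2 = r.2 ∧ VR.pl (sl t i j x) P.2 P.1 r.1 ≠ 0 := hst
      have h3 : Stp t (up i j x P.1 P.2) (update (up i j x P.1 P.2) i r.1) := by
        refine Stp.mv i r.1 ?_ ?_
        · rw [up_ui hij, h1]
          exact hr'
        · unfold pj
          rw [up_i hij, up_ui hij, up_ui hij, ← sl_pp t hij]
          exact h2
      rw [up_ui hij, h1] at h3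
      rw [h1]
      exact h3
    | false =>
      obtain ⟨h1, h2⟩ : P.1 = r.1 ∧ VR.pl (VR.tr (sl t i j x)) P.1 P.2 r.2 ≠ 0 := hst
      have h3 : Stp t (up i j x P.1 P.2) (update (up i j x P.1 P.2) j r.2) := by
        refine Stp.mv j r.2 ?_ ?_
        · rw [up_uj, h1]
          exact hr'
        · unfold pj
          rw [up_j, up_uj, up_uj, ← sl_pp t hij]
          rw [VR.pl_tr] at h2
          exact h2
      rw [up_uj, h1] at h3
      rw [h1]
      exact h3

end field

section red

variable {J L k : Type} [Fintype J] [DecidableEq J] [NontriviallyNormedField L]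
  [IsUltrametricDist L] [Field k] {π : L → k}

theorem sum_le' {ι : Type} (s : Finset ι) {f : ι → L} (h : ∀ i, ‖f i‖ ≤ 1) :
    ‖∑ i ∈ s, f i‖ ≤ 1 := by
  classical
  induction s using Finset.induction_on with
  | empty => simp
  | insert a s ha ih =>
    rw [Finset.sum_insert ha]
    exact (IsUltrametricDist.norm_add_le_max _ _).trans (max_le (h a) ih)

theorem sum_red (h : DW.Res π) {ι : Type} (s : Finset ι) {f : ι → L} (hf : ∀ i, ‖f i‖ ≤ 1) :
    π (∑ i ∈ s, f i) = ∑ i ∈ s, π (f i) := by
  classical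
  induction s using Finset.induction_on with
  | empty => rw [Finset.sum_empty, Finset.sum_empty, h.zero]
  | insert a s ha ih =>
    rw [Finset.sum_insert ha, Finset.sum_insert ha, h.add _ _ (hf a) (sum_le' s hf), ih]

theorem prod_le' {ι : Type} (s : Finset ι) {f : ι → L} (h : ∀ i, ‖f i‖ ≤ 1) :
    ‖∏ i ∈ s, f i‖ ≤ 1 := by
  classical
  induction s using Finset.induction_on with
  | empty => simp
  | insert a s ha ih =>
    rw [Finset.prod_insert ha]
    exact DW.mul_le1 (h a) ih

theorem prod_red (h : DW.Res π) {ι : Type} (s : Finset ι) {f : ι → L} (hf : ∀ i, ‖f i‖ ≤ 1) :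
    π (∏ i ∈ s, f i) = ∏ i ∈ s, π (f i) := by
  classical
  induction s using Finset.induction_on with
  | empty => rw [Finset.prod_empty, Finset.prod_empty, h.one]
  | insert a s ha ih =>
    rw [Finset.prod_insert ha, Finset.prod_insert ha, h.mul _ _ (hf a) (prod_le' s hf), ih]

theorem pb_le {t : Tm J L} (ht : ∀ a, ‖t a‖ ≤ 1) {x y : J → Fin 3 → L}
    (hx : ∀ l c, ‖x l c‖ ≤ 1) (hy : ∀ l c, ‖y l c‖ ≤ 1) : ‖PB t x y‖ ≤ 1 :=
  sum_le' _ fun a => DW.mul_le1 (ht a) (prod_le' _ fun l => DW.mul_le1 (hx _ _) (hy _ _))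

theorem pb_red (h : DW.Res π) {t : Tm J L} (ht : ∀ a, ‖t a‖ ≤ 1) {x y : J → Fin 3 → L}
    (hx : ∀ l c, ‖x l c‖ ≤ 1) (hy : ∀ l c, ‖y l c‖ ≤ 1) :
    π (PB t x y) = PB (fun a => π (t a)) (fun l c => π (x l c)) (fun l c => π (y l c)) := by
  unfold PB
  rw [sum_red h _ fun a => DW.mul_le1 (ht a) (prod_le' _ fun l => DW.mul_le1 (hx _ _) (hy _ _))]
  refine Finset.sum_congr rfl fun a _ => ?_
  rw [h.mul _ _ (ht a) (prod_le' _ fun l => DW.mul_le1 (hx _ _) (hy _ _)),
    prod_red h _ fun _ => DW.mul_le1 (hx _ _) (hy _ _)]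
  congr 1
  exact Finset.prod_congr rfl fun l _ => h.mul _ _ (hx _ _) (hy _ _)

theorem single_le (c b : Fin 3) : ‖(Pi.single c 1 : Fin 3 → L) b‖ ≤ 1 := by
  by_cases h : b = c
  · rw [h, Pi.single_eq_same, norm_one]
  · rw [Pi.single_eq_of_ne h, norm_zero]
    exact zero_le_one

theorem single_red (h : DW.Res π) (c : Fin 3) :
    (fun b => π ((Pi.single c 1 : Fin 3 → L) b)) = Pi.single c 1 := by
  funext b
  by_cases hb : b = c
  · rw [hb, Pi.single_eq_same, Pi.single_eq_same, h.one]
  · rw [Pi.single_eq_of_ne hb, Pi.single_eq_of_ne hb, h.zero]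

theorem up_le (i j : J) {x : J → Fin 3 → L} (hx : ∀ l c, ‖x l c‖ ≤ 1) {y z : Fin 3 → L}
    (hy : ∀ c, ‖y c‖ ≤ 1) (hz : ∀ c, ‖z c‖ ≤ 1) (l : J) (c : Fin 3) :
    ‖up i j x y z l c‖ ≤ 1 := by
  unfold up
  by_cases hj : l = j
  · subst hj
    rw [update_self]
    exact hz c
  · rw [update_of_ne hj]
    by_cases hi : l = i
    · subst hi
      rw [update_self]
      exact hy c
    · rw [update_of_ne hi]
      exact hx l c

theorem up_red (i j : J) (x : J → Fin 3 → L) (y z : Fin 3 → L) :
    (fun l c => π (up i j x y z l c)) =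
      up i j (fun l c => π (x l c)) (fun c => π (y c)) (fun c => π (z c)) := by
  funext l c
  unfold up
  by_cases hj : l = j
  · subst hj
    rw [update_self, update_self]
  · rw [update_of_ne hj, update_of_ne hj]
    by_cases hi : l = i
    · subst hi
      rw [update_self, update_self]
    · rw [update_of_ne hi, update_of_ne hi]

theorem sl_red (h : DW.Res π) {t : Tm J L} (ht : ∀ a, ‖t a‖ ≤ 1) (i j : J)
    {x : J → Fin 3 → L} (hx : ∀ l c, ‖x l c‖ ≤ 1) :
    (fun a b c d => π (sl t i j x a b c d)) =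
      sl (fun a => π (t a)) i j (fun l c => π (x l c)) := by
  funext a b c d
  show π (PB t (up i j x (Pi.single a 1) (Pi.single c 1))
    (up i j x (Pi.single b 1) (Pi.single d 1))) = PB (fun a => π (t a))
      (up i j (fun l c => π (x l c)) (Pi.single a 1) (Pi.single c 1))
      (up i j (fun l c => π (x l c)) (Pi.single b 1) (Pi.single d 1))
  rw [pb_red h ht (up_le i j hx (single_le a) (single_le c))
    (up_le i j hx (single_le b) (single_le d)), up_red, up_red, single_red h, single_red h,
    single_red h, single_red h]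

end red

end LB

open LB in
theorem lb (hL : VR.StmLOC) (hD : VR.StmDEN) : StmLB := by
  obtain ⟨q₁, w, hloc⟩ := hL
  obtain ⟨q₂, hden⟩ := hD
  refine ⟨max q₁ q₂, ?_⟩
  intro J L k _ _ _ _ _ _ _ π hπ hcard t hs ht i j hij x hx hgd p q hp hq
  have hsy := sl_Sy hs hij x
  have hit : ∀ a b c d, ‖sl t i j x a b c d‖ ≤ 1 := fun a b c d =>
    pb_le ht (up_le i j hx (single_le a) (single_le c)) (up_le i j hx (single_le b) (single_le d))
  have hgd' : VR.Gd (fun a b c d => π (sl t i j x a b c d)) := by
    rw [sl_red hπ ht i j hx]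
    exact hgd
  have hgp : VR.GoodPlace (max q₁ q₂) π (sl t i j x) :=
    ⟨inferInstance, inferInstance, hπ, hcard, hit, hgd'⟩
  -- the points of the slice
  have hup : ∀ r, Pa t {i, j} x r → up i j x (r i) (r j) = r := by
    intro r hr
    funext l
    by_cases hlj : l = j
    · subst hlj
      rw [up_j]
    · by_cases hli : l = i
      · subst hli
        rw [up_i hij]
      · unfold up
        rw [update_of_ne hlj, update_of_ne hli]
        exact (hr.1 l (by simp [hli, hlj])).symm
  have hF : ∀ r, Pa t {i, j} x r → VR.fm (sl t i j x) (r i) (r j) = 0 := by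
    intro r hr
    have h1 := sl_pp t hij x (r i) (r i) (r j) (r j)
    rw [hup r hr] at h1
    exact h1.trans hr.2.2
  have hni : ∀ r, Pa t {i, j} x r → r i ≠ 0 := fun r hr => hr.2.1 i (by simp)
  have hnj : ∀ r, Pa t {i, j} x r → r j ≠ 0 := fun r hr => hr.2.1 j (by simp)
  obtain ⟨x', y', h1, h2, -⟩ := hden L k π hπ ((le_max_right _ _).trans hcard) (sl t i j x) hsy
    hit hgd' (p i) (p j) (hni p hp) (hnj p hp) (hF p hp) 1 one_pos
  have key : ∀ r, Pa t {i, j} x r → E t r (up i j x x' y') := by
    intro r hr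
    have h3 := hloc L k π hπ ((le_max_left _ _).trans hcard) (sl t i j x) hsy hit hgd'
      (r i, r j) (x', y') (hF r hr) h1 h2
    rcases VR.MAIN.smooth hgp (hni r hr) (hnj r hr) (hF r hr) with ⟨c, hc⟩ | ⟨c, hc⟩
    · have h4 := wd_E hij x w (r i, r j) (x', y') (h3.1 ⟨_, hc⟩)
      simp only at h4
      rwa [hup r hr] at h4
    · have h4 := wd_E hij x (false :: w) (r i, r j) (x', y') (h3.2 ⟨Pi.single c 1, by
        rw [VR.pl_tr]
        exact hc⟩)
      simp only at h4
      rwa [hup r hr] at h4
  exact (key p hp).trans (E_symm hs hq.2.2 (key q hq)).1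

end Pool.Agent.T6.H77.VN
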