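import Pool.Agent.T6.H77.VN.BAS
import Pool.Agent.T6.H77.DC.LC

/-!
# Lifting of smooth points of a conic (helper77)
-/

set_option autoImplicit false

namespace Pool.Agent.T6.H77.VN

open Function

theorem lft : StmLFT := by
  intro J L k _ _ _ _ _ _ π h h2 t hs ht x j z hx hF hz
  choose u hu huz using fun c => h.surj (z c)
  have hzu : (fun c => π (u c)) = z := funext huz
  obtain ⟨c, hc⟩ : ∃ c : Fin 3, pj (fun a => π (t a)) j (fun l c => π (x l c)) z
      (Pi.single c 1) ≠ 0 := by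
    by_contra hcon
    push Not at hcon
    obtain ⟨z', hz'⟩ := hz
    apply hz'
    unfold pj
    rw [PB_sum2]
    refine Finset.sum_eq_zero fun c _ => ?_
    have := hcon c
    unfold pj at this
    rw [this, mul_zero]
  set e : Fin 3 → L := Pi.single c 1 with he
  have ie : ∀ i, ‖e i‖ ≤ 1 := single_le c
  have re : (fun i => π (e i)) = Pi.single c 1 := single_red h c
  set A := Fn t (update x j u) with hA
  set b := pj t j x u e with hb
  set a := Fn t (update x j e) with ha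
  have lA : ‖A‖ ≤ 1 := Fn_le h ht (upd_le hx j hu)
  have lb : ‖b‖ ≤ 1 := pj_le h ht hx j hu ie
  have la : ‖a‖ ≤ 1 := Fn_le h ht (upd_le hx j ie)
  have rA : π A = 0 := by
    rw [hA, Fn_red h ht (upd_le hx j hu), upd_red, hzu]
    exact hF
  have rb : π b ≠ 0 := by
    rw [hb, pj_red h ht hx j hu ie, hzu, re]
    exact hc
  have laA : ‖a * A‖ ≤ 1 := mul_le1 la lA
  have lD : ‖b ^ 2 - a * A‖ ≤ 1 := DW.sub_le1 (DW.sq_le1 lb) laA
  have rD : π (b ^ 2 - a * A) = π b ^ 2 := by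
    rw [h.sub (DW.sq_le1 lb) laA, h.sq lb, h.mul _ _ la lA, rA, mul_zero, sub_zero]
  obtain ⟨W, hW1, hW2, hW3⟩ := DC.LC.root h h2 lb rb lD rD
  have lbW : ‖b + W‖ ≤ 1 := (IsUltrametricDist.norm_add_le_max _ _).trans (max_le lb hW1)
  have rbW : π (b + W) ≠ 0 := by
    rw [h.add _ _ lb hW1, hW2, ← two_mul]
    exact mul_ne_zero h2 rb
  have nbW : ‖b + W‖ = 1 := h.norm_one_of lbW rbW
  have bW0 : b + W ≠ 0 := by
    intro h0
    rw [h0, norm_zero] at nbW
    exact zero_ne_one nbW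
  set s : L := -(A / (b + W)) with hsdef
  have ls : ‖s‖ < 1 := by
    rw [hsdef, norm_neg, norm_div, nbW, div_one]
    exact (h.ker _ lA).1 rA
  have lse : ∀ i, ‖s * e i‖ < 1 := by
    intro i
    rw [norm_mul]
    exact mul_lt_one_of_nonneg_of_lt_one_left (norm_nonneg _) ls (ie i)
  refine ⟨u + s • e, ?_, ?_, ?_⟩
  · intro i
    rw [Pi.add_apply, Pi.smul_apply, smul_eq_mul]
    exact (IsUltrametricDist.norm_add_le_max _ _).trans (max_le (hu i) (lse i).le)
  · intro i
    rw [Pi.add_apply, Pi.smul_apply, smul_eq_mul, h.add _ _ (hu i) (lse i).le,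
      (h.ker _ (lse i).le).2 (lse i), add_zero]
    exact huz i
  · rw [Fn_add hs, Fn_smul, pj_smul_r, ← hA, ← hb, ← ha]
    have e1 : A + 2 * (s * b) + s ^ 2 * a = A / (b + W) ^ 2 * (W ^ 2 - (b ^ 2 - a * A)) := by
      rw [hsdef]
      field_simp
      ring
    rw [e1, hW3, sub_self, mul_zero]

end Pool.Agent.T6.H77.VN
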