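import Pool.Agent.T6.H77.VN.BAS
import Pool.Agent.T6.H77.DW.LOC

/-!
# Weak weak approximation for hypersurfaces of multidegree (2, ..., 2): assembly (helper77)
-/

set_option autoImplicit false

open Filter Topology Function

namespace Pool.Agent.T6.H77.VN

/-- the points of `F = 0` with all `x_j ≠ 0` -/
def Pt {J L : Type} [Fintype J] [DecidableEq J] [Field L] (t : Tm J L) (p : J → Fin 3 → L) :
    Prop := (∀ j, p j ≠ 0) ∧ Fn t p = 0

/-- the points of `F = 0` such that all the conics through the point are smooth -/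
def Sm {J L : Type} [Fintype J] [DecidableEq J] [Field L] (t : Tm J L) (p : J → Fin 3 → L) :
    Prop := Pt t p ∧ ∀ j, (dj t j p).det ≠ 0

/-- `X(K)` in the product of the `L v` -/
def XK {J K ι : Type} [Fintype J] [DecidableEq J] [Field K] {L : ι → Type} [∀ v, Field (L v)]
    (σ : ∀ v, K →+* L v) (t : Tm J K) : Set (∀ v, J → Fin 3 → L v) :=
  {S | ∃ x : J → Fin 3 → K, Pt t x ∧ S = fun v j i => σ v (x j i)}

/-- Good places: `L` is a complete ultrametric field with finite residue field `k` (via `π`) with at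
least `q₀` elements, `F` is integral, its reduction is good (`Gn`), and on the reduction there is a
`k`-point such that all the conics through it are smooth. -/
structure GoodPlace (N q₀ m : ℕ) {J L k : Type} [Fintype J] [DecidableEq J]
    [NontriviallyNormedField L] [Field k] [Fintype k] (π : L → k) (t : Tm J L) : Prop where
  um : IsUltrametricDist L
  cs : CompleteSpace L
  res : DW.Res π
  card : q₀ ≤ Fintype.card k
  two : (2 : k) ≠ 0
  it : ∀ a, ‖t a‖ ≤ 1
  pt : ∃ x, Sm (fun a => π (t a)) x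
  gd : Gn N (fun a => π (t a)) m Finset.univ 0

namespace MAIN

theorem smooth_of {J k : Type} [Fintype J] [DecidableEq J] [Field k] {t : Tm J k} (hs : Sn t)
    (j : J) (x : J → Fin 3 → k) (h : (dj t j x).det ≠ 0) {z : Fin 3 → k} (hz : z ≠ 0) :
    ∃ z', pj t j x z z' ≠ 0 := by
  by_contra hc
  push Not at hc
  apply h
  rw [← Matrix.exists_mulVec_eq_zero_iff]
  refine ⟨z, hz, ?_⟩
  funext a
  have := hc (Pi.single a 1)
  rw [pj_symm hs, pj_dj] at this
  rw [Pi.zero_apply, ← this]
  unfold Matrix.mulVec dotProduct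
  symm
  rw [Finset.sum_eq_single a]
  · refine Finset.sum_congr rfl fun b _ => ?_
    rw [Pi.single_eq_same, mul_one]
  · intro b _ hb
    refine Finset.sum_eq_zero fun c _ => ?_
    rw [Pi.single_eq_of_ne hb]; ring
  · intro h0
    exact absurd (Finset.mem_univ a) h0

theorem not_smooth {J k : Type} [Fintype J] [DecidableEq J] [Field k] {t : Tm J k} (hs : Sn t)
    (j : J) (x : J → Fin 3 → k) (h : (dj t j x).det = 0) :
    ∃ z : Fin 3 → k, z ≠ 0 ∧ ∀ z', pj t j x z z' = 0 := by
  rw [← Matrix.exists_mulVec_eq_zero_iff] at h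
  obtain ⟨z, hz, hM⟩ := h
  refine ⟨z, hz, fun z' => ?_⟩
  rw [pj_symm hs, pj_dj]
  refine Finset.sum_eq_zero fun a _ => ?_
  have := congrFun hM a
  rw [Pi.zero_apply] at this
  unfold Matrix.mulVec dotProduct at this
  calc ∑ b, dj t j x a b * z' a * z b = z' a * ∑ b, dj t j x a b * z b := by
        rw [Finset.mul_sum]
        exact Finset.sum_congr rfl fun b _ => by ring
    _ = 0 := by rw [this, mul_zero]

section loc

variable {J L k : Type} [Fintype J] [DecidableEq J] [NontriviallyNormedField L] [Field k]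
  [Fintype k] {π : L → k} {t : Tm J L} {N q₀ m : ℕ}

theorem det_red [IsUltrametricDist L] [CompleteSpace L] (h : DW.Res π) (hs : Sn t) (ht : ∀ a, ‖t a‖ ≤ 1)
    {x : J → Fin 3 → L} (hx : ∀ l c, ‖x l c‖ ≤ 1) (j : J)
    (h0 : (dj (fun a => π (t a)) j (fun l c => π (x l c))).det ≠ 0) : (dj t j x).det ≠ 0 := by
  intro h1
  obtain ⟨z, hz, hz'⟩ := not_smooth hs j x h1
  obtain ⟨b, z₀, hb, hbz, iz, i₁, hz1⟩ := DW.LOC.prim z hz
  have hs' : Sn (fun a => π (t a)) := fun a j => by
    change π _ = π _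
    rw [hs a j]
  obtain ⟨w, hw⟩ := smooth_of hs' j (fun l c => π (x l c)) h0 (z := fun c => π (z₀ c))
    (fun h2 => by
      have := congrFun h2 i₁
      simp only [hz1, h.one] at this
      exact one_ne_zero this)
  apply hw
  choose w' hw1 hw2 using fun c => h.surj (w c)
  have e : w = fun c => π (w' c) := funext fun c => (hw2 c).symm
  rw [e, ← pj_red h ht hx j iz hw1]
  have := hz' w'
  rw [hbz, pj_smul_l] at this
  rw [(mul_eq_zero.1 this).resolve_left hb, h.zero]

theorem exists_sm (hLFT : StmLFT) (hs : Sn t) (hg : GoodPlace N q₀ m π t) (j₀ : J) :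
    ∃ p, Sm t p := by
  have := hg.um
  have := hg.cs
  have h := hg.res
  obtain ⟨x, ⟨hx1, hx2⟩, hx3⟩ := hg.pt
  have hs' : Sn (fun a => π (t a)) := fun a j => by
    change π _ = π _
    rw [hs a j]
  choose u hu hux using fun l c => h.surj (x l c)
  have ex : (fun l c => π (u l c)) = x := funext fun l => funext fun c => hux l c
  obtain ⟨y, hy, hyx, hF⟩ := hLFT J L k π h hg.two t hs hg.it u j₀ (x j₀) hu
    (by rw [ex, update_eq_self]; exact hx2)
    (by rw [ex]; exact smooth_of hs' j₀ x (hx3 j₀) (hx1 j₀))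
  have hp : ∀ l c, ‖update u j₀ y l c‖ ≤ 1 := upd_le hu j₀ hy
  have ep : (fun l c => π (update u j₀ y l c)) = x := by
    rw [upd_red, ex, funext hyx, update_eq_self]
  refine ⟨update u j₀ y, ⟨fun l hl => ?_, hF⟩, fun l => ?_⟩
  · apply hx1 l
    rw [← ep]
    funext c
    change π (update u j₀ y l c) = 0
    rw [hl]
    exact h.zero
  · refine det_red h hs hg.it hp l ?_
    rw [ep]
    exact hx3 l

end loc

section cont

variable {J L : Type} [Fintype J] [DecidableEq J] [NontriviallyNormedField L]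

theorem cont_det (t : Tm J L) (j : J) :
    Continuous fun x : J → Fin 3 → L => (dj t j x).det := by
  refine Continuous.matrix_det (continuous_matrix fun a b => ?_)
  simp only [dj, Matrix.of_apply, pj, PB]
  have hc : ∀ (z : Fin 3 → L) (l : J) (c : Fin 3),
      Continuous fun x : J → Fin 3 → L => update x j z l c := by
    intro z l c
    by_cases hl : l = j
    · subst hl
      simp only [update_self]
      exact continuous_const
    · simp only [update_of_ne hl]
      fun_prop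
  refine continuous_finsetSum _ fun a _ => Continuous.mul continuous_const ?_
  exact continuous_finsetProd _ fun l _ => (hc _ l _).mul (hc _ l _)

end cont

end MAIN

open MAIN in
theorem main (hIND : StmIND) (hDEN : StmDEN) (hCL : StmCL) (hLFT : StmLFT) (m N : ℕ) :
    ∃ q₀ : ℕ, ∀ (J K ι : Type) [Fintype J] [DecidableEq J] [Field K] (L k : ι → Type)
      [∀ v, NontriviallyNormedField (L v)] [∀ v, Field (k v)] [∀ v, Fintype (k v)]
      (σ : ∀ v, K →+* L v) (π : ∀ v, L v → k v) (t : Tm J K), Fintype.card J = m + 2 → Sn t →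
      (DenseRange fun (b : K) (v : ι) => σ v b) → ∀ G : Set ι,
      (∀ v ∈ G, GoodPlace N q₀ m (π v) fun a => σ v (t a)) →
      ∀ T ∈ closure (XK σ t), (∀ v ∉ G, Sm (fun a => σ v (t a)) (T v)) →
      ∀ S : ∀ v, J → Fin 3 → L v, (∀ v ∉ G, S v = T v) →
      (∀ v ∈ G, Pt (fun a => σ v (t a)) (S v)) → S ∈ closure (XK σ t) := by
  classical
  obtain ⟨q₀, hI⟩ := hIND N m
  refine ⟨q₀, ?_⟩
  intro J K ι _ _ _ L k _ _ _ σ π t hJ hs hσ G hG T hT hTo S hSG hS
  have hsv : ∀ v, Sn (fun a => σ v (t a)) := fun v a j => congrArg (σ v) (hs a j)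
  obtain ⟨j₀⟩ : Nonempty J := by
    rw [← Fintype.card_pos_iff, hJ]; omega
  have hEv : ∀ v ∈ G, ∀ p q : J → Fin 3 → L v, (∀ l, p l ≠ 0) → Fn (fun a => σ v (t a)) p = 0 →
      (∀ l, q l ≠ 0) → Fn (fun a => σ v (t a)) q = 0 → E (fun a => σ v (t a)) p q := by
    intro v hv p q hp1 hp2 hq1 hq2
    have := (hG v hv).um
    have := (hG v hv).cs
    refine hI J (L v) (k v) (π v) (hG v hv).res (hG v hv).card (hG v hv).two _ (hsv v)
      (hG v hv).it Finset.univ 0 ?_ ?_ ?_ p q ⟨fun l hl => absurd (Finset.mem_univ l) hl,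
        fun l _ => hp1 l, hp2⟩ ⟨fun l hl => absurd (Finset.mem_univ l) hl, fun l _ => hq1 l, hq2⟩
    · rw [Finset.card_univ, hJ]
    · intro l c
      rw [Pi.zero_apply, Pi.zero_apply, norm_zero]
      exact zero_le_one
    · have e : (fun (l : J) (c : Fin 3) => π v ((0 : J → Fin 3 → L v) l c)) = 0 := by
        funext l c
        exact (hG v hv).res.zero
      rw [e]
      exact (hG v hv).gd
  have h2v : ∀ v ∈ G, (2 : L v) ≠ 0 := by
    intro v hv h0
    have := (hG v hv).um
    have h3 := (hG v hv).res.norm_two (hG v hv).two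
    rw [h0, norm_zero] at h3
    exact zero_ne_one h3
  have hden : ∀ v ∈ G, ∀ u : Set (J → Fin 3 → L v), IsOpen u → (∃ s ∈ u, Pt
      (fun a => σ v (t a)) s) → ∃ s ∈ u, Sm (fun a => σ v (t a)) s := by
    rintro v hv u hu ⟨s, hsu, hs1, hs2⟩
    obtain ⟨p₀, ⟨h1, h2⟩, h3⟩ := exists_sm hLFT (hsv v) (hG v hv) j₀
    obtain ⟨ε, hε, hεu⟩ := Metric.isOpen_iff.1 hu s hsu
    obtain ⟨q, q1, q2, q3, q4⟩ := hDEN J (L v) (h2v v hv) _ (hsv v) (hEv v hv) p₀ h1 h2 h3 s hs1
      hs2 ε hε
    refine ⟨q, hεu ?_, ⟨q1, q2⟩, q3⟩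
    rw [Metric.mem_ball, dist_pi_lt_iff hε]
    intro l
    rw [dist_pi_lt_iff hε]
    intro c
    rw [dist_eq_norm]
    exact q4 l c
  have hdet : ∀ (v : ι) (x : J → Fin 3 → K) (j : J),
      (dj (fun a => σ v (t a)) j (fun l c => σ v (x l c))).det ≠ 0 ↔ (dj t j x).det ≠ 0 := by
    intro v x j
    rw [← dj_map]
    exact map_ne_zero (σ v)
  have claim : ∀ G₀ : Finset ι, (∀ v ∈ G₀, v ∈ G) → ∀ I₀ : Finset ι, (∀ v ∈ I₀, v ∉ G) →
      ∀ u : ∀ v, Set (J → Fin 3 → L v), (∀ v ∈ I₀, IsOpen (u v) ∧ T v ∈ u v) →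
      (∀ v ∈ G₀, IsOpen (u v) ∧ ∃ s ∈ u v, Pt (fun a => σ v (t a)) s) →
      ∃ x : J → Fin 3 → K, Pt t x ∧ (∀ v ∈ I₀ ∪ G₀, (fun l c => σ v (x l c)) ∈ u v) ∧
        ((∃ v, v ∈ I₀ ∪ G₀) → ∀ j, (dj t j x).det ≠ 0) := by
    intro G₀
    induction G₀ using Finset.induction_on with
    | empty =>
      intro _ I₀ hI₀ u hu _
      have hO : IsOpen {R : ∀ v, J → Fin 3 → L v | ∀ v ∈ I₀, R v ∈ u v ∧
          ∀ j, (dj (fun a => σ v (t a)) j (R v)).det ≠ 0} := by
        have : {R : ∀ v, J → Fin 3 → L v | ∀ v ∈ I₀, R v ∈ u v ∧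
          ∀ j, (dj (fun a => σ v (t a)) j (R v)).det ≠ 0} = (I₀ : Set ι).pi fun v =>
            u v ∩ ⋂ j, {r | (dj (fun a => σ v (t a)) j r).det ≠ 0} := by
          ext R
          simp only [Set.mem_ofPred_eq, Set.mem_pi, Finset.mem_coe, Set.mem_inter_iff,
            Set.mem_iInter]
        rw [this]
        refine isOpen_set_pi I₀.finite_toSet fun v hv => (hu v hv).1.inter ?_
        exact isOpen_iInter_of_finite fun j => isOpen_ne.preimage (cont_det _ j)
      obtain ⟨R, hR, x, hx, rfl⟩ := mem_closure_iff.1 hT _ hO fun v hv =>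
        ⟨(hu v hv).2, (hTo v (hI₀ v hv)).2⟩
      refine ⟨x, hx, ?_, ?_⟩
      · intro v hv
        rw [Finset.union_empty] at hv
        exact (hR v hv).1
      · rintro ⟨v, hv⟩ j
        rw [Finset.union_empty] at hv
        exact (hdet v x j).1 ((hR v hv).2 j)
    | insert v G₀ hvG₀ ih =>
      intro hGG I₀ hI₀ u hu hu'
      obtain ⟨x, hx1, hx2, hx3⟩ := ih (fun w hw => hGG w (Finset.mem_insert_of_mem hw)) I₀ hI₀ u hu
        (fun w hw => hu' w (Finset.mem_insert_of_mem hw))
      have hv : v ∈ G := hGG v (Finset.mem_insert_self v G₀)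
      obtain ⟨s, hsu, hsm⟩ := hden v hv (u v) (hu' v (Finset.mem_insert_self v G₀)).1
        (hu' v (Finset.mem_insert_self v G₀)).2
      have hvW : v ∉ I₀ ∪ G₀ := by
        rw [Finset.mem_union, not_or]
        exact ⟨fun h0 => hI₀ v h0 hv, hvG₀⟩
      have h2K : (2 : K) ≠ 0 := by
        intro h0
        apply h2v v hv
        rw [← map_ofNat (σ v) 2, h0, map_zero]
      have hdense : DenseRange fun b : K => (σ v b, fun w : {w // w ∈ I₀ ∪ G₀} => σ w b) := by
        have hg : Function.Surjective fun R : (∀ v, L v) =>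
            (R v, fun w : {w // w ∈ I₀ ∪ G₀} => R w) := by
          rintro ⟨a, b⟩
          refine ⟨update (fun w => if h : w ∈ I₀ ∪ G₀ then b ⟨w, h⟩ else 0) v a, ?_⟩
          refine Prod.ext ?_ ?_
          · simp only [update_self]
          · funext w
            have : (w : ι) ≠ v := fun h0 => hvW (h0 ▸ w.2)
            simp only [update_of_ne this, dif_pos w.2]
        have hgc : Continuous fun R : (∀ v, L v) =>
            (R v, fun w : {w // w ∈ I₀ ∪ G₀} => R w) := by
          refine (continuous_apply v).prodMk (continuous_pi fun w => continuous_apply _)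
        exact hg.denseRange.comp hσ hgc
      have hFv : ∀ w, Fn (fun a => σ w (t a)) (fun l c => σ w (x l c)) = 0 := by
        intro w
        rw [← Fn_map, hx1.2, map_zero]
      have hcl := hCL J K {w // w ∈ I₀ ∪ G₀} (L v) (fun w => L w) (σ v) (fun w => σ w) hdense
        h2K t hs (fun w l c => σ w (x l c)) (fun w => hFv w)
        (fun w j => (hdet w x j).2 (hx3 ⟨w, w.2⟩ j)) (fun l c => σ v (x l c)) s
        (hEv v hv _ s (fun l hl => hx1.1 l (funext fun c => (map_eq_zero (σ v)).1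
          (congrFun hl c))) (hFv v) hsm.1.1 hsm.1.2) (hFv v) (subset_closure ⟨x, hx1.2, rfl⟩)
      have hO : IsOpen (((u v ∩ (⋂ j, {r | (dj (fun a => σ v (t a)) j r).det ≠ 0})) ∩
          (⋂ l, {r : J → Fin 3 → L v | r l ≠ 0})) ×ˢ
          (Set.univ.pi fun w : {w // w ∈ I₀ ∪ G₀} => u w)) := by
        refine IsOpen.prod ?_ ?_
        · refine IsOpen.inter (IsOpen.inter (hu' v (Finset.mem_insert_self v G₀)).1 ?_) ?_
          · exact isOpen_iInter_of_finite fun j => isOpen_ne.preimage (cont_det _ j)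
          · exact isOpen_iInter_of_finite fun l => isOpen_ne.preimage (continuous_apply l)
        · refine isOpen_set_pi Set.finite_univ fun w _ => ?_
          rcases Finset.mem_union.1 w.2 with h0 | h0
          · exact (hu w h0).1
          · exact (hu' w (Finset.mem_insert_of_mem h0)).1
      obtain ⟨⟨a, b⟩, ⟨h1, h3⟩, y, hy, hab⟩ := mem_closure_iff.1 hcl _ hO
        ⟨⟨⟨hsu, Set.mem_iInter.2 hsm.2⟩, Set.mem_iInter.2 hsm.1.1⟩, fun w _ => hx2 w w.2⟩
      obtain ⟨ha, hb⟩ := Prod.mk.injEq _ _ _ _ ▸ hab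
      subst ha hb
      obtain ⟨⟨h4, h5⟩, h6⟩ := h1
      have hyd : ∀ j, (dj t j y).det ≠ 0 := fun j => (hdet v y j).1 (Set.mem_iInter.1 h5 j)
      refine ⟨y, ⟨fun l hl => ?_, hy⟩, ?_, fun _ => hyd⟩
      · apply Set.mem_iInter.1 h6 l
        funext c
        change σ v (y l c) = 0
        rw [hl]
        exact map_zero (σ v)
      · intro w hw
        rcases Finset.mem_union.1 hw with h0 | h0
        · exact h3 ⟨w, Finset.mem_union_left _ h0⟩ (Set.mem_univ _)
        · rcases Finset.mem_insert.1 h0 with rfl | h0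
          · exact h4
          · exact h3 ⟨w, Finset.mem_union_right _ h0⟩ (Set.mem_univ _)
  rw [mem_closure_iff]
  intro o ho hSo
  obtain ⟨I, u, hu, huo⟩ := isOpen_pi_iff.1 ho S hSo
  obtain ⟨x, hx1, hx2, -⟩ := claim (I.filter (· ∈ G)) (fun v hv => (Finset.mem_filter.1 hv).2)
    (I.filter (· ∉ G)) (fun v hv => (Finset.mem_filter.1 hv).2) u
    (fun v hv => by
      obtain ⟨h1, h2⟩ := Finset.mem_filter.1 hv
      rw [← hSG v h2]
      exact hu v h1)
    (fun v hv => by
      obtain ⟨h1, h2⟩ := Finset.mem_filter.1 hv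
      exact ⟨(hu v h1).1, S v, (hu v h1).2, hS v h2⟩)
  refine ⟨fun v j i => σ v (x j i), huo ?_, x, hx1, rfl⟩
  intro v hv
  apply hx2
  by_cases hvG : v ∈ G
  · exact Finset.mem_union_right _ (Finset.mem_filter.2 ⟨hv, hvG⟩)
  · exact Finset.mem_union_left _ (Finset.mem_filter.2 ⟨hv, hvG⟩)

end Pool.Agent.T6.H77.VN
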