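import Pool.Agent.T6.H77.VN.Stm

/-!
Project VN, module MEET: a good slice which meets two given good slices.
-/

set_option autoImplicit false

namespace Pool.Agent.T6.H77.VN

open Function

namespace MEET

theorem dj_zero {J R : Type} [Fintype J] [DecidableEq J] [CommRing R] (t : Tm J R) (i l : J)
    (hl : l ≠ i) (w : J → Fin 3 → R) (hw : w l = 0) : dj t i w = 0 := by
  ext a b
  show PB t (update w i (Pi.single a 1)) (update w i (Pi.single b 1)) = 0
  unfold PB
  refine Finset.sum_eq_zero fun c _ => ?_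
  rw [Finset.prod_eq_zero (Finset.mem_univ l), mul_zero]
  rw [update_of_ne hl, hw]
  simp

theorem Sn_map {J R S : Type} [Fintype J] [DecidableEq J] [CommRing R] [CommRing S] (π : R → S)
    (t : Tm J R) (h : Sn t) : Sn (fun a => π (t a)) := fun a j => by
  show π (t (update a j (a j).swap)) = π (t a)
  rw [h a j]

theorem res_zero {L k : Type} [NormedField L] [Field k] {π : L → k} (h : DW.Res π) :
    π 0 = 0 := (h.ker 0 (by simp)).2 (by simp)

theorem mk_r (hL : StmLFT) (hP : StmPT) {J L k : Type} [Fintype J] [DecidableEq J]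
    [NontriviallyNormedField L] [IsUltrametricDist L] [CompleteSpace L] [Field k] [Fintype k]
    (π : L → k) (hπ : DW.Res π) (h2 : (2 : k) ≠ 0) (t : Tm J L) (hS : Sn t)
    (ht : ∀ a, ‖t a‖ ≤ 1) (A : Finset J) (x : J → Fin 3 → L) (hx : ∀ l c, ‖x l c‖ ≤ 1)
    (i j j' : J) (hi : i ∈ A) (hj : j ∈ A) (hj' : j' ∈ A) (hjj : j ≠ j') (hij : i ≠ j)
    (hij' : i ≠ j') (z y : Fin 3 → L) (hz : ∀ c, ‖z c‖ ≤ 1) (hy : ∀ c, ‖y c‖ ≤ 1)
    (x1 : J → Fin 3 → k) (hx1 : ∀ l ∉ A.erase j, x1 l = fun c => π (update x j z l c))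
    (hdet : (dj (fun a => π (t a)) i (update x1 j' (fun c => π (y c)))).det ≠ 0) :
    ∃ r, Pa t (A.erase j) (update x j z) r ∧ Pa t (A.erase j') (update x j' y) r := by
  classical
  set w1 := update x1 j' (fun c => π (y c)) with hw1
  have hne : ∀ l, l ≠ i → w1 l ≠ 0 := by
    intro l hl h0
    apply hdet
    rw [dj_zero _ i l hl w1 h0, Matrix.det_zero]
  obtain ⟨ζ, hζ0, hζ, hζs⟩ := hP J k (fun a => π (t a)) h2 (Sn_map π t hS) i w1 hdet
  choose lf hlf using hπ.surj
  let w : J → Fin 3 → L := fun l => if l = j' then y else if l = j then z else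
    if l ∈ A then fun c => lf (x1 l c) else x l
  have hwj' : w j' = y := if_pos rfl
  have hwj : w j = z := by
    show (if j = j' then y else if j = j then z else
      if j ∈ A then fun c => lf (x1 j c) else x j) = z
    rw [if_neg hjj, if_pos rfl]
  have hwA : ∀ l, l ∉ A → w l = x l := by
    intro l hl
    show (if l = j' then y else if l = j then z else
      if l ∈ A then fun c => lf (x1 l c) else x l) = x l
    rw [if_neg, if_neg, if_neg hl]
    · rintro rfl
      exact hl hj
    · rintro rfl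
      exact hl hj'
  have hwo : ∀ l, l ∈ A → l ≠ j → l ≠ j' → w l = fun c => lf (x1 l c) := by
    intro l hl h1 h3
    show (if l = j' then y else if l = j then z else
      if l ∈ A then fun c => lf (x1 l c) else x l) = _
    rw [if_neg h3, if_neg h1, if_pos hl]
  have hwi : ∀ l c, ‖w l c‖ ≤ 1 := by
    intro l c
    by_cases h1 : l = j'
    · rw [h1, hwj']
      exact hy c
    by_cases h3 : l = j
    · rw [h3, hwj]
      exact hz c
    by_cases h4 : l ∈ A
    · rw [hwo l h4 h3 h1]
      exact (hlf _).1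
    · rw [hwA l h4]
      exact hx l c
  have hwr : (fun l c => π (w l c)) = w1 := by
    funext l
    by_cases h1 : l = j'
    · rw [h1, hwj', hw1, update_self]
    rw [hw1, update_of_ne h1]
    by_cases h3 : l = j
    · rw [h3, hwj, hx1 j (Finset.notMem_erase j A), update_self]
    by_cases h4 : l ∈ A
    · rw [hwo l h4 h3 h1]
      funext c
      exact (hlf _).2
    · rw [hwA l h4, hx1 l (fun h => h4 (Finset.mem_of_mem_erase h)), update_of_ne h3]
  obtain ⟨zt, hzt1, hzt2, hzt3⟩ := hL J L k π hπ h2 t hS ht w i ζ hwi (by rw [hwr]; exact hζ)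
    (by rw [hwr]; exact hζs)
  have hr0 : ∀ l, update w i zt l ≠ 0 := by
    intro l h0
    by_cases hl : l = i
    · rw [hl, update_self] at h0
      apply hζ0
      funext c
      rw [← hzt2 c, h0]
      exact res_zero hπ
    · rw [update_of_ne hl] at h0
      apply hne l hl
      rw [← hwr]
      funext c
      show π (w l c) = 0
      rw [h0]
      exact res_zero hπ
  refine ⟨update w i zt, ⟨fun l hl => ?_, fun l _ => hr0 l, hzt3⟩,
    fun l hl => ?_, fun l _ => hr0 l, hzt3⟩
  · have hli : l ≠ i := by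
      rintro rfl
      exact hl (Finset.mem_erase.2 ⟨hij, hi⟩)
    rw [update_of_ne hli]
    by_cases h3 : l = j
    · rw [h3, hwj, update_self]
    · rw [update_of_ne h3, hwA l (fun h => hl (Finset.mem_erase.2 ⟨h3, h⟩))]
  · have hli : l ≠ i := by
      rintro rfl
      exact hl (Finset.mem_erase.2 ⟨hij', hi⟩)
    rw [update_of_ne hli]
    by_cases h3 : l = j'
    · rw [h3, hwj', update_self]
    · rw [update_of_ne h3, hwA l (fun h => hl (Finset.mem_erase.2 ⟨h3, h⟩))]

theorem upd_res {J L k : Type} [DecidableEq J] (π : L → k) (x : J → Fin 3 → L) (j : J)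
    (z : Fin 3 → L) :
    (fun l c => π (update x j z l c)) = update (fun l c => π (x l c)) j (fun c => π (z c)) := by
  funext l
  by_cases h : l = j
  · rw [h, update_self, update_self]
  · rw [update_of_ne h, update_of_ne h]

end MEET

open MEET in
theorem meet (hL : StmLFT) (hP : StmPT) (hZ : StmSZ) (hT : StmTH) (hN : StmND) : StmMEET := by
  classical
  intro N m
  obtain ⟨q1, hq1⟩ := hN N m
  refine ⟨max q1 (2 * N + 13), ?_⟩
  intro J L k _ _ _ _ _ _ _ π hπ hq h2 t hS ht A x hA hx hG j hj j' hj' hjj z z' hz hz' hGz hGz'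
  have hq' : q1 ≤ Fintype.card k := (le_max_left _ _).trans hq
  have hq'' : 2 * N + 13 ≤ Fintype.card k := (le_max_right _ _).trans hq
  obtain ⟨i, hi, hij, hij'⟩ : ∃ i ∈ A, i ≠ j ∧ i ≠ j' := by
    have h1 : 0 < ((A.erase j).erase j').card := by
      rw [Finset.card_erase_of_mem (Finset.mem_erase.2 ⟨hjj.symm, hj'⟩),
        Finset.card_erase_of_mem hj]
      omega
    obtain ⟨i, hi⟩ := Finset.card_pos.1 h1
    rw [Finset.mem_erase, Finset.mem_erase] at hi
    exact ⟨i, hi.2.2, hi.2.1, hi.1⟩
  have hcard : (A.erase j).card = m + 2 := by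
    rw [Finset.card_erase_of_mem hj]
    omega
  have hiA : i ∈ A.erase j := Finset.mem_erase.2 ⟨hij, hi⟩
  obtain ⟨x1, hx1, hd1⟩ := hq1 J k (fun a => π (t a)) (A.erase j) _ hq' hcard hGz i hiA
  obtain ⟨x2, hx2, hd2⟩ := hq1 J k (fun a => π (t a)) (A.erase j) _ hq' hcard hGz' i hiA
  have hz1 := hZ J k (fun a => π (t a)) i j' hij' x1 hd1
  have hz2 := hZ J k (fun a => π (t a)) i j' hij' x2 hd2
  have hz3 := hT k N (fun v => ¬ Gn N (fun a => π (t a)) m (A.erase j')
    (update (fun l c => π (x l c)) j' v)) (hG.2 j' hj')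
  obtain ⟨yb, hy1, hy2, hy3⟩ : ∃ yb : Fin 3 → k,
      (dj (fun a => π (t a)) i (update x1 j' yb)).det ≠ 0 ∧
      (dj (fun a => π (t a)) i (update x2 j' yb)).det ≠ 0 ∧
      Gn N (fun a => π (t a)) m (A.erase j') (update (fun l c => π (x l c)) j' yb) := by
    by_contra hcon
    push Not at hcon
    have h3 : (Set.univ : Set (Fin 3 → k)) ⊆
        ({y : Fin 3 → k | (dj (fun a => π (t a)) i (update x1 j' y)).det = 0} ∪
        {y : Fin 3 → k | (dj (fun a => π (t a)) i (update x2 j' y)).det = 0}) ∪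
        {y : Fin 3 → k | ¬ Gn N (fun a => π (t a)) m (A.erase j')
          (update (fun l c => π (x l c)) j' y)} := by
      intro v _
      by_cases h4 : (dj (fun a => π (t a)) i (update x1 j' v)).det = 0
      · exact Or.inl (Or.inl h4)
      by_cases h5 : (dj (fun a => π (t a)) i (update x2 j' v)).det = 0
      · exact Or.inl (Or.inr h5)
      · exact Or.inr (hcon v h4 h5)
    have h6 := (Set.ncard_le_ncard h3 (Set.toFinite _)).trans
      ((Set.ncard_union_le _ _).trans (Nat.add_le_add_right (Set.ncard_union_le _ _) _))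
    rw [Set.ncard_univ, Nat.card_eq_fintype_card, Fintype.card_fun, Fintype.card_fin] at h6
    have h7 : 0 < Fintype.card k := Fintype.card_pos
    have h8 : (2 * N + 12) * Fintype.card k ^ 2 < Fintype.card k ^ 3 := by
      have h9 : 0 < Fintype.card k ^ 2 := by positivity
      calc (2 * N + 12) * Fintype.card k ^ 2 < Fintype.card k * Fintype.card k ^ 2 :=
            Nat.mul_lt_mul_of_pos_right (by omega) h9
        _ = Fintype.card k ^ 3 := by ring
    have h10 : (2 * N + 12) * Fintype.card k ^ 2 =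
      6 * Fintype.card k ^ 2 + 6 * Fintype.card k ^ 2 + 2 * N * Fintype.card k ^ 2 := by ring
    omega
  choose lf hlf using hπ.surj
  have hyr : (fun c => π (lf (yb c))) = yb := funext fun c => (hlf (yb c)).2
  refine ⟨fun c => lf (yb c), fun c => (hlf _).1, ?_, ?_, ?_⟩
  · rw [upd_res π x j' (fun c => lf (yb c)), hyr]
    exact hy3
  · exact mk_r hL hP π hπ h2 t hS ht A x hx i j j' hi hj hj' hjj hij hij' z _ hz
      (fun c => (hlf _).1) x1 hx1 (by rw [hyr]; exact hy1)
  · exact mk_r hL hP π hπ h2 t hS ht A x hx i j j' hi hj hj' hjj hij hij' z' _ hz'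
      (fun c => (hlf _).1) x2 hx2 (by rw [hyr]; exact hy2)

end Pool.Agent.T6.H77.VN
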