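import Pool.Agent.T6.H77.VN.Stm

/-!
Project VN, module ND: good forms are nondegenerate.
-/

set_option autoImplicit false

namespace Pool.Agent.T6.H77.VN

open Function

theorem nd (hT : StmTH) : StmND := by
  classical
  intro N m
  refine ⟨2 * N + 1, ?_⟩
  intro J k _ _ _ _ t A x hq
  induction m generalizing A x with
  | zero =>
    intro _ hG
    exact hG.1
  | succ m ih =>
    intro hA hG i hi
    obtain ⟨j, hj, hji⟩ : ∃ j ∈ A, j ≠ i := by
      have h1 : 0 < (A.erase i).card := by
        rw [Finset.card_erase_of_mem hi]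
        omega
      obtain ⟨j, hj⟩ := Finset.card_pos.1 h1
      exact ⟨j, Finset.mem_of_mem_erase hj, Finset.ne_of_mem_erase hj⟩
    have h2 := hT k N (fun z => ¬ Gn N t m (A.erase j) (update x j z)) (hG.2 j hj)
    obtain ⟨z, hz⟩ : ∃ z : Fin 3 → k, Gn N t m (A.erase j) (update x j z) := by
      by_contra hcon
      push Not at hcon
      have h3 : {z : Fin 3 → k | ¬ Gn N t m (A.erase j) (update x j z)} = Set.univ := by
        ext z
        simp [hcon z]
      rw [h3, Set.ncard_univ, Nat.card_eq_fintype_card, Fintype.card_fun, Fintype.card_fin] at h2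
      have h4 : 0 < Fintype.card k := Fintype.card_pos
      have h5 : 2 * N * Fintype.card k ^ 2 < Fintype.card k ^ 3 := by
        have h6 : 0 < Fintype.card k ^ 2 := by positivity
        have h7 : 2 * N < Fintype.card k := by omega
        calc 2 * N * Fintype.card k ^ 2 < Fintype.card k * Fintype.card k ^ 2 :=
              Nat.mul_lt_mul_of_pos_right h7 h6
          _ = Fintype.card k ^ 3 := by ring
      omega
    have hcard : (A.erase j).card = m + 2 := by
      rw [Finset.card_erase_of_mem hj, hA]
      omega
    have h8 := ih (A.erase j) (update x j z) hcard hz i (Finset.mem_erase.2 ⟨hji.symm, hi⟩)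
    obtain ⟨x', hx', hdet⟩ := h8
    refine ⟨x', fun l hl => ?_, hdet⟩
    have hlj : l ≠ j := by
      rintro rfl
      exact hl hj
    rw [hx' l (fun h => hl (Finset.mem_of_mem_erase h)), update_of_ne hlj]

end Pool.Agent.T6.H77.VN
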