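import Pool.Agent.T6.H77.VN.Stm

/-!
Project VN, module NRM: primitive vectors.
-/

set_option autoImplicit false

namespace Pool.Agent.T6.H77.VN

open Function

namespace NRM

/-- primitive multiples -/
theorem prim {L : Type} [NormedField L] (x : Fin 3 → L) (hx : x ≠ 0) :
    ∃ c : L, c ≠ 0 ∧ (∀ i, ‖(c • x) i‖ ≤ 1) ∧ ∃ i, (c • x) i = 1 := by
  obtain ⟨m, hm⟩ := Finite.exists_max fun i => ‖x i‖
  have hm0 : x m ≠ 0 := by
    intro h
    apply hx
    funext i
    have := hm i
    rw [h, norm_zero] at this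
    exact norm_le_zero_iff.1 this
  refine ⟨(x m)⁻¹, inv_ne_zero hm0, fun i => ?_, m, ?_⟩
  · rw [Pi.smul_apply, smul_eq_mul, norm_mul, norm_inv, inv_mul_eq_div]
    exact div_le_one_of_le₀ (hm i) (norm_nonneg _)
  · rw [Pi.smul_apply, smul_eq_mul, inv_mul_cancel₀ hm0]

theorem Fn_sc {J R : Type} [Fintype J] [DecidableEq J] [CommRing R] (t : Tm J R)
    (p : J → Fin 3 → R) (l : J) (c : R) : Fn t (update p l (c • p l)) = c ^ 2 * Fn t p := by
  unfold Fn PB
  rw [Finset.mul_sum]
  refine Finset.sum_congr rfl fun a _ => ?_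
  have h1 : ∀ q : J → Fin 3 → R, ∏ j, (q j (a j).1 * q j (a j).2) =
      (q l (a l).1 * q l (a l).2) * ∏ j ∈ Finset.univ.erase l, (q j (a j).1 * q j (a j).2) :=
    fun q => (Finset.mul_prod_erase Finset.univ (fun j => q j (a j).1 * q j (a j).2)
      (Finset.mem_univ l)).symm
  rw [h1 (update p l (c • p l)), h1 p]
  have h2 : ∏ j ∈ Finset.univ.erase l, (update p l (c • p l) j (a j).1 *
      update p l (c • p l) j (a j).2) =
      ∏ j ∈ Finset.univ.erase l, (p j (a j).1 * p j (a j).2) := by
    refine Finset.prod_congr rfl fun j hj => ?_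
    rw [update_of_ne (Finset.ne_of_mem_erase hj)]
  rw [h2, update_self]
  simp only [Pi.smul_apply, smul_eq_mul]
  ring

end NRM

theorem nrm : StmNRM := by
  classical
  intro J L k _ _ _ _ _ π hπ t A x p hp
  have key : ∀ B : Finset J, B ⊆ A → ∃ p', E t p p' ∧ Pa t A x p' ∧
      ∀ l ∈ B, (∀ c, ‖p' l c‖ ≤ 1) ∧ ∃ c, π (p' l c) ≠ 0 := by
    intro B
    induction B using Finset.induction_on with
    | empty =>
      intro _
      exact ⟨p, Relation.ReflTransGen.refl, hp, fun l hl => absurd hl (Finset.notMem_empty l)⟩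
    | insert l B hl ih =>
      intro hBA
      obtain ⟨p', h1, h2, h3⟩ := ih fun i hi => hBA (Finset.mem_insert_of_mem hi)
      have hlA : l ∈ A := hBA (Finset.mem_insert_self l B)
      obtain ⟨c, hc, h4, i, h5⟩ := NRM.prim (p' l) (h2.2.1 l hlA)
      refine ⟨update p' l (c • p' l), h1.tail (Stp.sc l c hc), ⟨?_, ?_, ?_⟩, ?_⟩
      · intro j hj
        have hjl : j ≠ l := by
          rintro rfl
          exact hj hlA
        rw [update_of_ne hjl]
        exact h2.1 j hj
      · intro j hj
        by_cases hjl : j = l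
        · subst hjl
          rw [update_self]
          exact smul_ne_zero hc (h2.2.1 j hj)
        · rw [update_of_ne hjl]
          exact h2.2.1 j hj
      · rw [NRM.Fn_sc, h2.2.2, mul_zero]
      · intro j hj
        by_cases hjl : j = l
        · subst hjl
          rw [update_self]
          refine ⟨h4, i, ?_⟩
          rw [h5, hπ.one]
          exact one_ne_zero
        · rw [update_of_ne hjl]
          exact h3 j (Finset.mem_of_mem_insert_of_ne hj hjl)
  obtain ⟨p', h1, h2, h3⟩ := key A (Finset.Subset.refl A)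
  exact ⟨p', h1, h2, h3⟩

end Pool.Agent.T6.H77.VN
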