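import Pool.Agent.T6.H77.VN.Stm

/-!
# PT: a smooth conic over a finite field has a point
-/

set_option autoImplicit false

namespace Pool.Agent.T6.H77.VN.PT

open Function Finset

section ring

variable {J R : Type} [Fintype J] [DecidableEq J] [CommRing R]

theorem pj_eq (t : Tm J R) (j : J) (x : J → Fin 3 → R) (z z' : Fin 3 → R) :
    pj t j x z z' = ∑ a, t a * (z (a j).1 * z' (a j).2 *
      ∏ l ∈ univ.erase j, (x l (a l).1 * x l (a l).2)) := by
  unfold pj PB
  refine Finset.sum_congr rfl fun a _ => ?_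
  congr 1
  rw [← Finset.mul_prod_erase univ _ (mem_univ j)]
  simp only [update_self]
  congr 1
  refine Finset.prod_congr rfl fun l hl => ?_
  rw [update_of_ne (ne_of_mem_erase hl), update_of_ne (ne_of_mem_erase hl)]

theorem pj_dj (t : Tm J R) (j : J) (x : J → Fin 3 → R) (z z' : Fin 3 → R) :
    pj t j x z z' = ∑ a, ∑ b, dj t j x a b * z a * z' b := by
  simp only [dj, Matrix.of_apply]
  rw [pj_eq]
  simp only [pj_eq, Finset.sum_mul]
  have h : ∀ c : Fin 3, (∑ d : Fin 3, ∑ a : J → Fin 3 × Fin 3,
      t a * ((Pi.single c (1 : R) : Fin 3 → R) (a j).1 * (Pi.single d (1 : R) : Fin 3 → R) (a j).2 *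
      ∏ l ∈ univ.erase j, (x l (a l).1 * x l (a l).2)) * z c * z' d) =
      ∑ a : J → Fin 3 × Fin 3, ∑ d : Fin 3,
      t a * ((Pi.single c (1 : R) : Fin 3 → R) (a j).1 * (Pi.single d (1 : R) : Fin 3 → R) (a j).2 *
      ∏ l ∈ univ.erase j, (x l (a l).1 * x l (a l).2)) * z c * z' d := fun c => Finset.sum_comm
  simp only [h]
  rw [Finset.sum_comm]
  refine Finset.sum_congr rfl fun a _ => ?_
  rw [Finset.sum_eq_single (a j).1, Finset.sum_eq_single (a j).2]
  · simp only [Pi.single_eq_same]; ring
  · intro d _ hd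
    rw [Pi.single_eq_of_ne (Ne.symm hd)]; ring
  · intro h; exact absurd (mem_univ _) h
  · intro c _ hc
    refine Finset.sum_eq_zero fun d _ => ?_
    rw [Pi.single_eq_of_ne (Ne.symm hc)]; ring
  · intro h; exact absurd (mem_univ _) h

end ring

/-- a quadratic form in three variables over a finite field has a nontrivial zero -/
theorem exists_zero (k : Type) [Field k] [Fintype k] (D : Matrix (Fin 3) (Fin 3) k) :
    ∃ z : Fin 3 → k, z ≠ 0 ∧ ∑ a, ∑ b, D a b * z a * z b = 0 := by
  classical
  obtain ⟨p, hp⟩ := CharP.exists k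
  have hpp : p.Prime := (CharP.char_is_prime_or_zero k p).resolve_right
    (CharP.char_ne_zero_of_finite k p)
  let f : MvPolynomial (Fin 3) k :=
    ∑ a, ∑ b, MvPolynomial.C (D a b) * MvPolynomial.X a * MvPolynomial.X b
  have hdeg : f.totalDegree ≤ 2 := by
    refine MvPolynomial.totalDegree_finsetSum_le fun a _ => ?_
    refine MvPolynomial.totalDegree_finsetSum_le fun b _ => ?_
    refine (MvPolynomial.totalDegree_mul _ _).trans ?_
    have h1 := MvPolynomial.totalDegree_mul (MvPolynomial.C (D a b) : MvPolynomial (Fin 3) k)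
      (MvPolynomial.X a)
    rw [MvPolynomial.totalDegree_C, MvPolynomial.totalDegree_X] at h1
    rw [MvPolynomial.totalDegree_X]
    omega
  have hdvd := char_dvd_card_solutions p (f := f) (by
    rw [Fintype.card_fin]; omega)
  have hev : ∀ z : Fin 3 → k, MvPolynomial.eval z f = ∑ a, ∑ b, D a b * z a * z b := by
    intro z
    simp [f, map_sum]
  by_contra hcon
  push Not at hcon
  have hone : Fintype.card {z : Fin 3 → k // MvPolynomial.eval z f = 0} = 1 := by
    rw [Fintype.card_eq_one_iff]
    refine ⟨⟨0, by rw [hev]; simp⟩, fun y => ?_⟩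
    ext1
    by_contra hy
    exact hcon y.1 hy (by rw [← hev]; exact y.2)
  rw [hone] at hdvd
  exact hpp.one_lt.ne' (Nat.dvd_one.mp hdvd)

end Pool.Agent.T6.H77.VN.PT

namespace Pool.Agent.T6.H77.VN

open Function Finset

theorem pt : StmPT := by
  intro J k _ _ _ _ t _ _ j x hD
  obtain ⟨z, hz, hz0⟩ := PT.exists_zero k (dj t j x)
  refine ⟨z, hz, ?_, ?_⟩
  · have : Fn t (update x j z) = pj t j x z z := rfl
    rw [this, PT.pj_dj, hz0]
  · by_contra hcon
    push Not at hcon
    apply hz
    have h1 : Matrix.vecMul z (dj t j x) = 0 := by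
      funext c
      have h2 := hcon (Pi.single c 1)
      rw [PT.pj_dj] at h2
      simp only [Matrix.vecMul, dotProduct, Pi.zero_apply]
      rw [← h2]
      refine Finset.sum_congr rfl fun a _ => ?_
      rw [Finset.sum_eq_single c]
      · rw [Pi.single_eq_same]; ring
      · intro b _ hb
        rw [Pi.single_eq_of_ne hb]; ring
      · intro h; exact absurd (mem_univ _) h
    exact Matrix.eq_zero_of_vecMul_eq_zero hD h1

end Pool.Agent.T6.H77.VN
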