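import Pool.Agent.T6.H77.VN.Stm

/-!
Project VN, module TH: a set which meets each conic and each line of the plane in few points is
small.
-/

set_option autoImplicit false

namespace Pool.Agent.T6.H77.VN

open Function

namespace TH

open Finset

theorem ncard_eq {α : Type} [Fintype α] (P : α → Prop) [DecidablePred P] :
    {z | P z}.ncard = (univ.filter P).card := by
  classical
  rw [Set.ncard_eq_toFinset_card']
  congr 1
  ext z
  simp

/-- the linear forms -/
def lf {k : Type} [Field k] : Option k → Fin 3 → k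
  | none => ![1, 0, 0]
  | some s => ![-s, 1, 0]

theorem sq {k : Type} [Field k] (l z : Fin 3 → k) :
    ∑ a, ∑ b, (l a * l b) * z a * z b = (∑ a, l a * z a) ^ 2 := by
  simp only [Fin.sum_univ_three]
  ring

theorem lf_ne {k : Type} [Field k] (o : Option k) : ∃ z : Fin 3 → k, ∑ a, lf o a * z a ≠ 0 := by
  cases o with
  | none =>
    refine ⟨![1, 0, 0], ?_⟩
    simp [lf, Fin.sum_univ_three]
  | some s =>
    refine ⟨![0, 1, 0], ?_⟩
    simp [lf, Fin.sum_univ_three]

theorem exists_lf {k : Type} [Field k] (z : Fin 3 → k) : ∃ o : Option k, ∑ a, lf o a * z a = 0 := by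
  by_cases h : z 0 = 0
  · refine ⟨none, ?_⟩
    simp [lf, Fin.sum_univ_three, h]
  · refine ⟨some (z 1 / z 0), ?_⟩
    simp only [lf, Fin.sum_univ_three, Matrix.cons_val_zero, Matrix.cons_val_one,
      Matrix.cons_val, neg_mul, one_mul, zero_mul, add_zero]
    rw [div_mul_cancel₀ _ h]
    ring

end TH

theorem th : StmTH := by
  classical
  intro k _ _ N B hB
  have h1 : ∀ o : Option k, (Finset.univ.filter fun z : Fin 3 → k =>
      ∑ a, TH.lf o a * z a = 0 ∧ B z).card ≤ N * Fintype.card k := by
    intro o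
    have h2 := hB (fun a b => TH.lf o a * TH.lf o b) (by
      obtain ⟨z, hz⟩ := TH.lf_ne o
      refine ⟨z, ?_⟩
      rw [TH.sq]
      exact pow_ne_zero 2 hz)
    rw [TH.ncard_eq] at h2
    refine le_trans (Finset.card_le_card ?_) h2
    intro z hz
    rw [Finset.mem_filter] at hz ⊢
    refine ⟨Finset.mem_univ _, ?_, hz.2.2⟩
    rw [TH.sq, hz.2.1]
    ring
  rw [TH.ncard_eq]
  have h3 : (Finset.univ.filter B) ⊆ (Finset.univ : Finset (Option k)).biUnion fun o =>
      Finset.univ.filter fun z : Fin 3 → k => ∑ a, TH.lf o a * z a = 0 ∧ B z := by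
    intro z hz
    rw [Finset.mem_filter] at hz
    rw [Finset.mem_biUnion]
    obtain ⟨o, ho⟩ := TH.exists_lf z
    exact ⟨o, Finset.mem_univ _, Finset.mem_filter.2 ⟨Finset.mem_univ _, ho, hz.2⟩⟩
  have h4 : (Finset.univ.filter B).card ≤ (Fintype.card k + 1) * (N * Fintype.card k) := by
    refine (Finset.card_le_card h3).trans (Finset.card_biUnion_le.trans ?_)
    refine (Finset.sum_le_sum fun o _ => h1 o).trans ?_
    rw [Finset.sum_const, Finset.card_univ, Fintype.card_option, smul_eq_mul]
  have h5 : 1 ≤ Fintype.card k := Fintype.card_pos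
  refine h4.trans ?_
  have h6 : (Fintype.card k + 1) * (N * Fintype.card k) ≤
      (Fintype.card k + Fintype.card k) * (N * Fintype.card k) :=
    Nat.mul_le_mul_right _ (by omega)
  refine h6.trans (le_of_eq ?_)
  ring

end Pool.Agent.T6.H77.VN
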