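import Pool.Agent.T6.H77.VN.Stm
import Pool.Agent.T6.H77.DW.LIFT

/-!
# Hypersurfaces of multidegree (2, ..., 2) in products of planes: basic lemmas (helper77)
-/

set_option autoImplicit false
set_option linter.unusedSectionVars false

namespace Pool.Agent.T6.H77.VN

open Function

section ring

variable {J R : Type} [Fintype J] [DecidableEq J] [CommRing R] {t : Tm J R}

theorem prod1 (a : J → Fin 3 × Fin 3) (x y : J → Fin 3 → R) (j : J) (z : Fin 3 → R) :
    ∏ l, (update x j z l (a l).1 * y l (a l).2) =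
      z (a j).1 * (y j (a j).2 * ∏ l ∈ Finset.univ.erase j, (x l (a l).1 * y l (a l).2)) := by
  rw [← Finset.mul_prod_erase Finset.univ _ (Finset.mem_univ j), update_self, mul_assoc]
  congr 2
  refine Finset.prod_congr rfl fun l hl => ?_
  rw [update_of_ne (Finset.ne_of_mem_erase hl)]

theorem prod2 (a : J → Fin 3 × Fin 3) (x y : J → Fin 3 → R) (j : J) (z : Fin 3 → R) :
    ∏ l, (x l (a l).1 * update y j z l (a l).2) =
      z (a j).2 * (x j (a j).1 * ∏ l ∈ Finset.univ.erase j, (x l (a l).1 * y l (a l).2)) := by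
  rw [← Finset.mul_prod_erase Finset.univ _ (Finset.mem_univ j), update_self]
  have : ∏ l ∈ Finset.univ.erase j, (x l (a l).1 * update y j z l (a l).2) =
      ∏ l ∈ Finset.univ.erase j, (x l (a l).1 * y l (a l).2) := by
    refine Finset.prod_congr rfl fun l hl => ?_
    rw [update_of_ne (Finset.ne_of_mem_erase hl)]
  rw [this]; ring

theorem lin1 (t : Tm J R) (x y : J → Fin 3 → R) (j : J) :
    ∃ g : (J → Fin 3 × Fin 3) → R, ∀ z, PB t (update x j z) y = ∑ a, z (a j).1 * g a := by
  refine ⟨fun a => t a * (y j (a j).2 * ∏ l ∈ Finset.univ.erase j, (x l (a l).1 * y l (a l).2)),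
    fun z => ?_⟩
  unfold PB
  refine Finset.sum_congr rfl fun a _ => ?_
  rw [prod1]; ring

theorem lin2 (t : Tm J R) (x y : J → Fin 3 → R) (j : J) :
    ∃ g : (J → Fin 3 × Fin 3) → R, ∀ z, PB t x (update y j z) = ∑ a, z (a j).2 * g a := by
  refine ⟨fun a => t a * (x j (a j).1 * ∏ l ∈ Finset.univ.erase j, (x l (a l).1 * y l (a l).2)),
    fun z => ?_⟩
  unfold PB
  refine Finset.sum_congr rfl fun a _ => ?_
  rw [prod2]; ring

theorem sum_single (z : Fin 3 → R) (i : Fin 3) :
    ∑ c, z c * (Pi.single c 1 : Fin 3 → R) i = z i := by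
  rw [Finset.sum_eq_single i]
  · rw [Pi.single_eq_same, mul_one]
  · intro c _ hc
    rw [Pi.single_eq_of_ne (Ne.symm hc), mul_zero]
  · intro h
    exact absurd (Finset.mem_univ i) h

theorem PB_add1 (x y : J → Fin 3 → R) (j : J) (z z' : Fin 3 → R) :
    PB t (update x j (z + z')) y = PB t (update x j z) y + PB t (update x j z') y := by
  obtain ⟨g, hg⟩ := lin1 t x y j
  rw [hg, hg, hg, ← Finset.sum_add_distrib]
  exact Finset.sum_congr rfl fun a _ => by rw [Pi.add_apply]; ring

theorem PB_add2 (x y : J → Fin 3 → R) (j : J) (z z' : Fin 3 → R) :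
    PB t x (update y j (z + z')) = PB t x (update y j z) + PB t x (update y j z') := by
  obtain ⟨g, hg⟩ := lin2 t x y j
  rw [hg, hg, hg, ← Finset.sum_add_distrib]
  exact Finset.sum_congr rfl fun a _ => by rw [Pi.add_apply]; ring

theorem PB_smul1 (x y : J → Fin 3 → R) (j : J) (c : R) (z : Fin 3 → R) :
    PB t (update x j (c • z)) y = c * PB t (update x j z) y := by
  obtain ⟨g, hg⟩ := lin1 t x y j
  rw [hg, hg, Finset.mul_sum]
  exact Finset.sum_congr rfl fun a _ => by rw [Pi.smul_apply, smul_eq_mul]; ring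

theorem PB_smul2 (x y : J → Fin 3 → R) (j : J) (c : R) (z : Fin 3 → R) :
    PB t x (update y j (c • z)) = c * PB t x (update y j z) := by
  obtain ⟨g, hg⟩ := lin2 t x y j
  rw [hg, hg, Finset.mul_sum]
  exact Finset.sum_congr rfl fun a _ => by rw [Pi.smul_apply, smul_eq_mul]; ring

theorem PB_zero1 (x y : J → Fin 3 → R) (j : J) : PB t (update x j 0) y = 0 := by
  rw [← zero_smul R (0 : Fin 3 → R), PB_smul1, zero_mul]

theorem PB_zero2 (x y : J → Fin 3 → R) (j : J) : PB t x (update y j 0) = 0 := by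
  rw [← zero_smul R (0 : Fin 3 → R), PB_smul2, zero_mul]

theorem PB_sum1 (x y : J → Fin 3 → R) (j : J) (z : Fin 3 → R) :
    PB t (update x j z) y = ∑ c, z c * PB t (update x j (Pi.single c 1)) y := by
  obtain ⟨g, hg⟩ := lin1 t x y j
  simp only [hg, Finset.mul_sum]
  rw [Finset.sum_comm]
  refine Finset.sum_congr rfl fun a _ => ?_
  simp only [← mul_assoc]
  rw [← Finset.sum_mul, sum_single]

theorem PB_sum2 (x y : J → Fin 3 → R) (j : J) (z : Fin 3 → R) :
    PB t x (update y j z) = ∑ c, z c * PB t x (update y j (Pi.single c 1)) := by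
  obtain ⟨g, hg⟩ := lin2 t x y j
  simp only [hg, Finset.mul_sum]
  rw [Finset.sum_comm]
  refine Finset.sum_congr rfl fun a _ => ?_
  simp only [← mul_assoc]
  rw [← Finset.sum_mul, sum_single]

theorem PB_swap (hs : Sn t) (x y : J → Fin 3 → R) (j : J) (z z' : Fin 3 → R) :
    PB t (update x j z) (update y j z') = PB t (update x j z') (update y j z) := by
  unfold PB
  refine Finset.sum_nbij' (fun a => update a j (a j).swap) (fun a => update a j (a j).swap)
    (fun a _ => Finset.mem_univ _) (fun a _ => Finset.mem_univ _) ?_ ?_ ?_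
  · intro a _
    simp
  · intro a _
    simp
  · intro a _
    rw [hs a j]
    congr 1
    refine Finset.prod_congr rfl fun l _ => ?_
    by_cases hl : l = j
    · subst hl
      simp only [update_self, Prod.fst_swap, Prod.snd_swap]
      ring
    · simp only [update_of_ne hl]

theorem pj_symm (hs : Sn t) (j : J) (x : J → Fin 3 → R) (z z' : Fin 3 → R) :
    pj t j x z z' = pj t j x z' z := PB_swap hs x x j z z'

theorem pj_self (j : J) (x : J → Fin 3 → R) (z : Fin 3 → R) :
    pj t j x z z = Fn t (update x j z) := rfl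

theorem pj_add_l (j : J) (x : J → Fin 3 → R) (z u z' : Fin 3 → R) :
    pj t j x (z + u) z' = pj t j x z z' + pj t j x u z' := PB_add1 _ _ _ _ _

theorem pj_add_r (j : J) (x : J → Fin 3 → R) (z z' u : Fin 3 → R) :
    pj t j x z (z' + u) = pj t j x z z' + pj t j x z u := PB_add2 _ _ _ _ _

theorem pj_smul_l (j : J) (x : J → Fin 3 → R) (c : R) (z z' : Fin 3 → R) :
    pj t j x (c • z) z' = c * pj t j x z z' := PB_smul1 _ _ _ _ _

theorem pj_smul_r (j : J) (x : J → Fin 3 → R) (c : R) (z z' : Fin 3 → R) :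
    pj t j x z (c • z') = c * pj t j x z z' := PB_smul2 _ _ _ _ _

theorem pj_zero_l (j : J) (x : J → Fin 3 → R) (z : Fin 3 → R) : pj t j x 0 z = 0 := PB_zero1 _ _ _

theorem pj_zero_r (j : J) (x : J → Fin 3 → R) (z : Fin 3 → R) : pj t j x z 0 = 0 := PB_zero2 _ _ _

/-- `pj` does not depend on `x j` -/
theorem pj_upd (j : J) (x : J → Fin 3 → R) (w z z' : Fin 3 → R) :
    pj t j (update x j w) z z' = pj t j x z z' := by
  unfold pj
  rw [update_idem, update_idem]

theorem dj_upd (j : J) (x : J → Fin 3 → R) (w : Fin 3 → R) :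
    dj t j (update x j w) = dj t j x := by
  unfold dj
  simp only [pj_upd]

theorem Fn_self (j : J) (x : J → Fin 3 → R) : Fn t x = Fn t (update x j (x j)) := by
  rw [update_eq_self]

theorem Fn_add (hs : Sn t) (j : J) (x : J → Fin 3 → R) (z u : Fin 3 → R) :
    Fn t (update x j (z + u)) =
      Fn t (update x j z) + 2 * pj t j x z u + Fn t (update x j u) := by
  rw [← pj_self, ← pj_self, ← pj_self, pj_add_l, pj_add_r, pj_add_r, pj_symm hs j x u z]
  ring

theorem Fn_smul (j : J) (x : J → Fin 3 → R) (c : R) (z : Fin 3 → R) :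
    Fn t (update x j (c • z)) = c ^ 2 * Fn t (update x j z) := by
  rw [← pj_self, ← pj_self, pj_smul_l, pj_smul_r]; ring

theorem Fn_zero (j : J) (x : J → Fin 3 → R) : Fn t (update x j 0) = 0 := PB_zero1 _ _ _

/-- the reflected point -/
theorem Fn_ref (hs : Sn t) (j : J) (x : J → Fin 3 → R) {z : Fin 3 → R}
    (h : Fn t (update x j z) = 0) (u : Fin 3 → R) :
    Fn t (update x j (Fn t (update x j u) • z + (-(2 * pj t j x z u)) • u)) = 0 := by
  rw [Fn_add hs, Fn_smul, Fn_smul, h, pj_smul_l, pj_smul_r]; ring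

theorem pj_dj (j : J) (x : J → Fin 3 → R) (z z' : Fin 3 → R) :
    pj t j x z z' = ∑ a, ∑ b, dj t j x a b * z a * z' b := by
  unfold pj
  rw [PB_sum1]
  refine Finset.sum_congr rfl fun a _ => ?_
  rw [PB_sum2, Finset.mul_sum]
  refine Finset.sum_congr rfl fun b _ => ?_
  unfold dj pj
  rw [Matrix.of_apply]; ring

theorem Fn_dj (j : J) (x : J → Fin 3 → R) (z : Fin 3 → R) :
    Fn t (update x j z) = ∑ a, ∑ b, dj t j x a b * z a * z b := pj_dj j x z z

theorem dj_symm (hs : Sn t) (j : J) (x : J → Fin 3 → R) (a b : Fin 3) :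
    dj t j x a b = dj t j x b a := pj_symm hs j x _ _

/-- slices -/
theorem sl_pp {i j : J} (hij : i ≠ j) (x : J → Fin 3 → R) (y y' z z' : Fin 3 → R) :
    VR.pp (sl t i j x) y y' z z' =
      PB t (update (update x i y) j z) (update (update x i y') j z') := by
  have ec : ∀ u v : Fin 3 → R, update (update x i u) j v = update (update x j v) i u :=
    fun u v => update_comm hij u v x
  have e : ∀ (c d : Fin 3), PB t (update (update x i y) j (Pi.single c 1))
      (update (update x i y') j (Pi.single d 1)) =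
      ∑ a, ∑ b, y a * (y' b * sl t i j x a b c d) := by
    intro c d
    rw [ec y, ec y', PB_sum1]
    refine Finset.sum_congr rfl fun a _ => ?_
    rw [PB_sum2, Finset.mul_sum]
    refine Finset.sum_congr rfl fun b _ => ?_
    unfold sl
    rw [ec, ec]
  rw [PB_sum1]
  have e2 : ∀ c, PB t (update (update x i y) j (Pi.single c 1)) (update (update x i y') j z') =
      ∑ d, z' d * ∑ a, ∑ b, y a * (y' b * sl t i j x a b c d) := by
    intro c
    rw [PB_sum2]
    exact Finset.sum_congr rfl fun d _ => by rw [e]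
  simp only [e2]
  unfold VR.pp
  simp only [Finset.mul_sum]
  calc ∑ a, ∑ b, ∑ c, ∑ d, sl t i j x a b c d * y a * y' b * z c * z' d
      = ∑ a, ∑ c, ∑ b, ∑ d, sl t i j x a b c d * y a * y' b * z c * z' d :=
        Finset.sum_congr rfl fun a _ => Finset.sum_comm
    _ = ∑ c, ∑ a, ∑ b, ∑ d, sl t i j x a b c d * y a * y' b * z c * z' d := Finset.sum_comm
    _ = ∑ c, ∑ a, ∑ d, ∑ b, sl t i j x a b c d * y a * y' b * z c * z' d :=
        Finset.sum_congr rfl fun c _ => Finset.sum_congr rfl fun a _ => Finset.sum_comm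
    _ = ∑ c, ∑ d, ∑ a, ∑ b, sl t i j x a b c d * y a * y' b * z c * z' d :=
        Finset.sum_congr rfl fun c _ => Finset.sum_comm
    _ = _ := by
        refine Finset.sum_congr rfl fun c _ => Finset.sum_congr rfl fun d _ =>
          Finset.sum_congr rfl fun a _ => Finset.sum_congr rfl fun b _ => ?_
        ring

theorem sl_Sy {i j : J} (hij : i ≠ j) (hs : Sn t) (x : J → Fin 3 → R) :
    VR.Sy (sl t i j x) := by
  constructor
  · intro a b c d
    unfold sl
    rw [update_comm hij, update_comm hij, PB_swap hs, update_comm hij.symm, update_comm hij.symm]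
  · intro a b c d
    unfold sl
    exact PB_swap hs _ _ _ _ _

end ring

section map

variable {J R S : Type} [Fintype J] [DecidableEq J] [CommRing R] [CommRing S] (s : R →+* S)
  (t : Tm J R)

theorem PB_map (x y : J → Fin 3 → R) : s (PB t x y) =
    PB (fun a => s (t a)) (fun l c => s (x l c)) (fun l c => s (y l c)) := by
  simp only [PB, map_sum, map_mul, map_prod]

theorem Fn_map (x : J → Fin 3 → R) : s (Fn t x) =
    Fn (fun a => s (t a)) (fun l c => s (x l c)) := PB_map s t x x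

theorem upd_map (x : J → Fin 3 → R) (j : J) (z : Fin 3 → R) :
    (fun l c => s (update x j z l c)) = update (fun l c => s (x l c)) j (fun c => s (z c)) := by
  funext l c
  by_cases hl : l = j
  · subst hl; simp only [update_self]
  · simp only [update_of_ne hl]

theorem pj_map (j : J) (x : J → Fin 3 → R) (z z' : Fin 3 → R) : s (pj t j x z z') =
    pj (fun a => s (t a)) j (fun l c => s (x l c)) (fun c => s (z c)) (fun c => s (z' c)) := by
  unfold pj
  rw [PB_map, upd_map, upd_map]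

theorem single_map (a : Fin 3) : (fun c => s ((Pi.single a 1 : Fin 3 → R) c)) =
    Pi.single a 1 := by
  funext c
  by_cases hc : c = a
  · subst hc; simp only [Pi.single_eq_same, map_one]
  · simp only [Pi.single_eq_of_ne hc, map_zero]

theorem dj_map (j : J) (x : J → Fin 3 → R) : s (dj t j x).det =
    (dj (fun a => s (t a)) j (fun l c => s (x l c))).det := by
  rw [RingHom.map_det]
  congr 1
  ext a b
  simp only [RingHom.mapMatrix_apply, Matrix.map_apply, dj, Matrix.of_apply]
  rw [pj_map, single_map, single_map]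

end map

section red

variable {J L k : Type} [Fintype J] [DecidableEq J] [NontriviallyNormedField L]
  [IsUltrametricDist L] [Field k] {π : L → k} {t : Tm J L}

theorem red_sum (h : DW.Res π) {α : Type} (s : Finset α) (f : α → L) (hf : ∀ a, ‖f a‖ ≤ 1) :
    ‖∑ a ∈ s, f a‖ ≤ 1 ∧ π (∑ a ∈ s, f a) = ∑ a ∈ s, π (f a) := by
  classical
  induction s using Finset.induction_on with
  | empty => simp [h.zero]
  | insert a s ha ih =>
    rw [Finset.sum_insert ha, Finset.sum_insert ha]
    exact ⟨(IsUltrametricDist.norm_add_le_max _ _).trans (max_le (hf a) ih.1), by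
      rw [h.add _ _ (hf a) ih.1, ih.2]⟩

theorem red_prod (h : DW.Res π) {α : Type} (s : Finset α) (f : α → L) (hf : ∀ a, ‖f a‖ ≤ 1) :
    ‖∏ a ∈ s, f a‖ ≤ 1 ∧ π (∏ a ∈ s, f a) = ∏ a ∈ s, π (f a) := by
  classical
  induction s using Finset.induction_on with
  | empty => simp [h.one]
  | insert a s ha ih =>
    rw [Finset.prod_insert ha, Finset.prod_insert ha]
    exact ⟨by rw [norm_mul]; exact mul_le_one₀ (hf a) (norm_nonneg _) ih.1, by
      rw [h.mul _ _ (hf a) ih.1, ih.2]⟩

theorem mul_le1 {a b : L} (ha : ‖a‖ ≤ 1) (hb : ‖b‖ ≤ 1) : ‖a * b‖ ≤ 1 := by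
  rw [norm_mul]; exact mul_le_one₀ ha (norm_nonneg _) hb

theorem PB_le (h : DW.Res π) (ht : ∀ a, ‖t a‖ ≤ 1) {x y : J → Fin 3 → L}
    (hx : ∀ l c, ‖x l c‖ ≤ 1) (hy : ∀ l c, ‖y l c‖ ≤ 1) : ‖PB t x y‖ ≤ 1 := by
  unfold PB
  exact (red_sum h _ _ fun a => mul_le1 (ht a)
    (red_prod h _ _ fun l => mul_le1 (hx l _) (hy l _)).1).1

theorem PB_red (h : DW.Res π) (ht : ∀ a, ‖t a‖ ≤ 1) {x y : J → Fin 3 → L}
    (hx : ∀ l c, ‖x l c‖ ≤ 1) (hy : ∀ l c, ‖y l c‖ ≤ 1) : π (PB t x y) =
    PB (fun a => π (t a)) (fun l c => π (x l c)) (fun l c => π (y l c)) := by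
  have e1 : ∀ a : J → Fin 3 × Fin 3, ‖∏ l, (x l (a l).1 * y l (a l).2)‖ ≤ 1 := fun a =>
    (red_prod h _ _ fun l => mul_le1 (hx l _) (hy l _)).1
  unfold PB
  rw [(red_sum h _ _ fun a => mul_le1 (ht a) (e1 a)).2]
  refine Finset.sum_congr rfl fun a _ => ?_
  rw [h.mul _ _ (ht a) (e1 a), (red_prod h _ _ fun l => mul_le1 (hx l _) (hy l _)).2]
  congr 1
  exact Finset.prod_congr rfl fun l _ => by rw [h.mul _ _ (hx l _) (hy l _)]

theorem upd_le {x : J → Fin 3 → L} (hx : ∀ l c, ‖x l c‖ ≤ 1) (j : J) {z : Fin 3 → L}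
    (hz : ∀ c, ‖z c‖ ≤ 1) : ∀ l c, ‖update x j z l c‖ ≤ 1 := by
  intro l c
  by_cases hl : l = j
  · subst hl; rw [update_self]; exact hz c
  · rw [update_of_ne hl]; exact hx l c

theorem upd_red (x : J → Fin 3 → L) (j : J) (z : Fin 3 → L) :
    (fun l c => π (update x j z l c)) = update (fun l c => π (x l c)) j (fun c => π (z c)) := by
  funext l c
  by_cases hl : l = j
  · subst hl; simp only [update_self]
  · simp only [update_of_ne hl]

theorem single_le (a : Fin 3) (c : Fin 3) : ‖(Pi.single a 1 : Fin 3 → L) c‖ ≤ 1 := by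
  by_cases hc : c = a
  · subst hc; rw [Pi.single_eq_same, norm_one]
  · rw [Pi.single_eq_of_ne hc, norm_zero]; exact zero_le_one

theorem single_red (h : DW.Res π) (a : Fin 3) :
    (fun c => π ((Pi.single a 1 : Fin 3 → L) c)) = Pi.single a 1 := by
  funext c
  by_cases hc : c = a
  · subst hc; simp only [Pi.single_eq_same, h.one]
  · simp only [Pi.single_eq_of_ne hc, h.zero]

theorem Fn_le (h : DW.Res π) (ht : ∀ a, ‖t a‖ ≤ 1) {x : J → Fin 3 → L}
    (hx : ∀ l c, ‖x l c‖ ≤ 1) : ‖Fn t x‖ ≤ 1 := PB_le h ht hx hx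

theorem Fn_red (h : DW.Res π) (ht : ∀ a, ‖t a‖ ≤ 1) {x : J → Fin 3 → L}
    (hx : ∀ l c, ‖x l c‖ ≤ 1) : π (Fn t x) = Fn (fun a => π (t a)) (fun l c => π (x l c)) :=
  PB_red h ht hx hx

theorem pj_le (h : DW.Res π) (ht : ∀ a, ‖t a‖ ≤ 1) {x : J → Fin 3 → L}
    (hx : ∀ l c, ‖x l c‖ ≤ 1) (j : J) {z z' : Fin 3 → L} (hz : ∀ c, ‖z c‖ ≤ 1)
    (hz' : ∀ c, ‖z' c‖ ≤ 1) : ‖pj t j x z z'‖ ≤ 1 :=
  PB_le h ht (upd_le hx j hz) (upd_le hx j hz')

theorem pj_red (h : DW.Res π) (ht : ∀ a, ‖t a‖ ≤ 1) {x : J → Fin 3 → L}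
    (hx : ∀ l c, ‖x l c‖ ≤ 1) (j : J) {z z' : Fin 3 → L} (hz : ∀ c, ‖z c‖ ≤ 1)
    (hz' : ∀ c, ‖z' c‖ ≤ 1) : π (pj t j x z z') =
    pj (fun a => π (t a)) j (fun l c => π (x l c)) (fun c => π (z c)) (fun c => π (z' c)) := by
  unfold pj
  rw [PB_red h ht (upd_le hx j hz) (upd_le hx j hz'), upd_red, upd_red]

theorem sl_le (h : DW.Res π) (ht : ∀ a, ‖t a‖ ≤ 1) {x : J → Fin 3 → L}
    (hx : ∀ l c, ‖x l c‖ ≤ 1) (i j : J) (a b c d : Fin 3) : ‖sl t i j x a b c d‖ ≤ 1 :=
  PB_le h ht (upd_le (upd_le hx i (single_le a)) j (single_le c))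
    (upd_le (upd_le hx i (single_le b)) j (single_le d))

theorem sl_red (h : DW.Res π) (ht : ∀ a, ‖t a‖ ≤ 1) {x : J → Fin 3 → L}
    (hx : ∀ l c, ‖x l c‖ ≤ 1) (i j : J) : (fun a b c d => π (sl t i j x a b c d)) =
    sl (fun a => π (t a)) i j (fun l c => π (x l c)) := by
  funext a b c d
  unfold sl
  rw [PB_red h ht (upd_le (upd_le hx i (single_le a)) j (single_le c))
    (upd_le (upd_le hx i (single_le b)) j (single_le d)), upd_red, upd_red, upd_red, upd_red,
    single_red h, single_red h, single_red h, single_red h]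

theorem dj_red (h : DW.Res π) (ht : ∀ a, ‖t a‖ ≤ 1) {x : J → Fin 3 → L}
    (hx : ∀ l c, ‖x l c‖ ≤ 1) (j : J) (a b : Fin 3) : π (dj t j x a b) =
    dj (fun a => π (t a)) j (fun l c => π (x l c)) a b := by
  unfold dj
  rw [Matrix.of_apply, Matrix.of_apply, pj_red h ht hx j (single_le a) (single_le b),
    single_red h, single_red h]

end red

section steps

variable {J L : Type} [Fintype J] [DecidableEq J] [Field L] {t : Tm J L}

theorem Stp.F {p q : J → Fin 3 → L} (h : Stp t p q) (hp : Fn t p = 0) : Fn t q = 0 := by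
  cases h with
  | mv j z h h' => exact h
  | sc j c hc => rw [Fn_smul, update_eq_self, hp, mul_zero]

theorem Stp.symm (hs : Sn t) {p q : J → Fin 3 → L} (h : Stp t p q) (hp : Fn t p = 0) :
    Stp t q p := by
  cases h with
  | mv j z h h' =>
    have := Stp.mv (t := t) (p := update p j z) j (p j)
      (by rw [update_idem, update_eq_self]; exact hp)
      (by rw [pj_upd, update_self, pj_symm hs]; exact h')
    rwa [update_idem, update_eq_self] at this
  | sc j c hc =>
    have := Stp.sc (t := t) (p := update p j (c • p j)) j c⁻¹ (inv_ne_zero hc)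
    rwa [update_self, smul_smul, inv_mul_cancel₀ hc, one_smul, update_idem,
      update_eq_self] at this

theorem E_F {p q : J → Fin 3 → L} (h : E t p q) (hp : Fn t p = 0) : Fn t q = 0 := by
  induction h with
  | refl => exact hp
  | tail _ h2 ih => exact h2.F ih

theorem E_symm (hs : Sn t) {p q : J → Fin 3 → L} (h : E t p q) (hp : Fn t p = 0) :
    E t q p := by
  induction h with
  | refl => exact Relation.ReflTransGen.refl
  | tail h1 h2 ih =>
    exact (Relation.ReflTransGen.single (h2.symm hs (E_F h1 hp))).trans ih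

theorem E_trans {p q r : J → Fin 3 → L} (h : E t p q) (h' : E t q r) : E t p r :=
  Relation.ReflTransGen.trans h h'

end steps

end Pool.Agent.T6.H77.VN
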