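import Pool.Agent.T6.H77.VR.Defs

/-!
# Hypersurfaces of multidegree (2, ..., 2) in products of planes: definitions (helper77)
-/

set_option autoImplicit false

namespace Pool.Agent.T6.H77.VN

open Function

/-- coefficients of forms of degree `2` in each of the variables `x_j` in `R³`, `j : J` -/
abbrev Tm (J R : Type) : Type := (J → Fin 3 × Fin 3) → R

section ring

variable {J R : Type} [Fintype J] [DecidableEq J] [CommRing R]

/-- `∑ t_a ∏ x_j(a_j) y_j(a'_j)` -/
def PB (t : Tm J R) (x y : J → Fin 3 → R) : R := ∑ a, t a * ∏ j, (x j (a j).1 * y j (a j).2)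

/-- the form `F(x) = ∑ t_a ∏ x_j(a_j) x_j(a'_j)` of degree `2` in each `x_j` -/
def Fn (t : Tm J R) (x : J → Fin 3 → R) : R := PB t x x

/-- the bilinear form of the quadratic form `F` in `x_j` -/
def pj (t : Tm J R) (j : J) (x : J → Fin 3 → R) (z z' : Fin 3 → R) : R :=
  PB t (update x j z) (update x j z')

/-- symmetric coefficients -/
def Sn (t : Tm J R) : Prop := ∀ a j, t (update a j (a j).swap) = t a

/-- the matrix of the quadratic form `F` in `x_j` -/
def dj (t : Tm J R) (j : J) (x : J → Fin 3 → R) : Matrix (Fin 3) (Fin 3) R :=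
  Matrix.of fun a b => pj t j x (Pi.single a 1) (Pi.single b 1)

/-- the form `F` of bidegree `(2, 2)` in `x_i` and `x_j`, the other variables being fixed -/
def sl (t : Tm J R) (i j : J) (x : J → Fin 3 → R) : VR.Tn R := fun a b c d =>
  PB t (update (update x i (Pi.single a 1)) j (Pi.single c 1))
    (update (update x i (Pi.single b 1)) j (Pi.single d 1))

end ring

section fin

variable {J k : Type} [Fintype J] [DecidableEq J] [Field k]

/-- In each of the families `i ∈ A` there is a smooth conic (the `x_j`, `j ∉ A`, being fixed). -/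
def Nd (t : Tm J k) (A : Finset J) (x : J → Fin 3 → k) : Prop :=
  ∀ i ∈ A, ∃ x' : J → Fin 3 → k, (∀ j ∉ A, x' j = x j) ∧ (dj t i x').det ≠ 0

/-- Good forms over a finite field in the variables `x_j`, `j ∈ A`, the other ones being fixed. For
`A = {i, j}`: `VR.Gd`, and there are smooth conics in both families. For `|A| > 2`: `F = 0` is
smooth at its `k`-points, and each line and each conic has at most `N` points `z`, such that
`F` with `x_i = z` is not good. -/
def Gn [Fintype k] (N : ℕ) (t : Tm J k) : ℕ → Finset J → (J → Fin 3 → k) → Prop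
  | 0, A, x => Nd t A x ∧ ∃ i j, i ≠ j ∧ A = {i, j} ∧ VR.Gd (sl t i j x)
  | m + 1, A, x => (∀ x' : J → Fin 3 → k, (∀ j ∉ A, x' j = x j) → (∀ j ∈ A, x' j ≠ 0) →
      Fn t x' = 0 → ∃ j ∈ A, ∃ z, pj t j x' (x' j) z ≠ 0) ∧
      ∀ i ∈ A, ∀ c : Fin 3 → Fin 3 → k, (∃ z : Fin 3 → k, ∑ a, ∑ b, c a b * z a * z b ≠ 0) →
        {z : Fin 3 → k | ∑ a, ∑ b, c a b * z a * z b = 0 ∧
          ¬ Gn N t m (A.erase i) (update x i z)}.ncard ≤ N * Fintype.card k

end fin

section steps

variable {J L : Type} [Fintype J] [DecidableEq J] [Field L]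

/-- moves along the conics, and scalings of one of the vectors -/
inductive Stp (t : Tm J L) (p : J → Fin 3 → L) : (J → Fin 3 → L) → Prop
  | mv (j : J) (z : Fin 3 → L) (h : Fn t (update p j z) = 0) (h' : pj t j p (p j) z ≠ 0) :
      Stp t p (update p j z)
  | sc (j : J) (c : L) (hc : c ≠ 0) : Stp t p (update p j (c • p j))

/-- joined by moves and scalings -/
def E (t : Tm J L) : (J → Fin 3 → L) → (J → Fin 3 → L) → Prop := Relation.ReflTransGen (Stp t)

/-- the points of the slice of `F = 0` given by the `x_j`, `j ∉ A` -/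
def Pa (t : Tm J L) (A : Finset J) (x p : J → Fin 3 → L) : Prop :=
  (∀ l ∉ A, p l = x l) ∧ (∀ l ∈ A, p l ≠ 0) ∧ Fn t p = 0

end steps

end Pool.Agent.T6.H77.VN
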