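import Pool.Agent.T6.H77.VN.Defs

/-!
# Hypersurfaces of multidegree (2, ..., 2) in products of planes: statements (helper77)
-/

set_option autoImplicit false

namespace Pool.Agent.T6.H77.VN

open Function

/-- LFT: the smooth points of the reduction of a conic lift -/
def StmLFT : Prop := ∀ (J L k : Type) [Fintype J] [DecidableEq J] [NontriviallyNormedField L]
  [IsUltrametricDist L] [CompleteSpace L] [Field k] (π : L → k), DW.Res π → (2 : k) ≠ 0 →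
  ∀ t : Tm J L, Sn t → (∀ a, ‖t a‖ ≤ 1) → ∀ (x : J → Fin 3 → L) (j : J) (z : Fin 3 → k),
  (∀ l c, ‖x l c‖ ≤ 1) → Fn (fun a => π (t a)) (update (fun l c => π (x l c)) j z) = 0 →
  (∃ z', pj (fun a => π (t a)) j (fun l c => π (x l c)) z z' ≠ 0) →
  ∃ y : Fin 3 → L, (∀ c, ‖y c‖ ≤ 1) ∧ (∀ c, π (y c) = z c) ∧ Fn t (update x j y) = 0

/-- CO: points on a conic outside the tangent line at one of them -/
def StmCO : Prop := ∀ (J k : Type) [Fintype J] [DecidableEq J] [Field k] [Fintype k]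
  (t : Tm J k), (2 : k) ≠ 0 → Sn t → ∀ (j : J) (x : J → Fin 3 → k), Fn t x = 0 →
  (∃ z, pj t j x (x j) z ≠ 0) → Fintype.card k ^ 2 ≤
    {z | Fn t (update x j z) = 0 ∧ pj t j x (x j) z ≠ 0}.ncard + Fintype.card k

/-- PT: a smooth conic has a point -/
def StmPT : Prop := ∀ (J k : Type) [Fintype J] [DecidableEq J] [Field k] [Fintype k]
  (t : Tm J k), (2 : k) ≠ 0 → Sn t → ∀ (j : J) (x : J → Fin 3 → k), (dj t j x).det ≠ 0 →
  ∃ z : Fin 3 → k, z ≠ 0 ∧ Fn t (update x j z) = 0 ∧ ∃ z', pj t j x z z' ≠ 0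

/-- SZ: zeros of a discriminant -/
def StmSZ : Prop := ∀ (J k : Type) [Fintype J] [DecidableEq J] [Field k] [Fintype k]
  (t : Tm J k) (i j : J), i ≠ j → ∀ x : J → Fin 3 → k, (dj t i x).det ≠ 0 →
  {y : Fin 3 → k | (dj t i (update x j y)).det = 0}.ncard ≤ 6 * Fintype.card k ^ 2

/-- TH: thin sets are small -/
def StmTH : Prop := ∀ (k : Type) [Field k] [Fintype k] (N : ℕ) (B : (Fin 3 → k) → Prop),
  (∀ c : Fin 3 → Fin 3 → k, (∃ z : Fin 3 → k, ∑ a, ∑ b, c a b * z a * z b ≠ 0) →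
    {z : Fin 3 → k | ∑ a, ∑ b, c a b * z a * z b = 0 ∧ B z}.ncard ≤ N * Fintype.card k) →
  {z | B z}.ncard ≤ 2 * N * Fintype.card k ^ 2

/-- LB: two variables -/
def StmLB : Prop := ∃ q₀ : ℕ, ∀ (J L k : Type) [Fintype J] [DecidableEq J]
  [NontriviallyNormedField L] [IsUltrametricDist L] [CompleteSpace L] [Field k] [Fintype k]
  (π : L → k), DW.Res π → q₀ ≤ Fintype.card k → ∀ t : Tm J L, Sn t → (∀ a, ‖t a‖ ≤ 1) →
  ∀ (i j : J), i ≠ j → ∀ x : J → Fin 3 → L, (∀ l c, ‖x l c‖ ≤ 1) →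
  VR.Gd (sl (fun a => π (t a)) i j (fun l c => π (x l c))) →
  ∀ p q : J → Fin 3 → L, Pa t {i, j} x p → Pa t {i, j} x q → E t p q

/-- NRM: primitive vectors -/
def StmNRM : Prop := ∀ (J L k : Type) [Fintype J] [DecidableEq J] [NontriviallyNormedField L]
  [IsUltrametricDist L] [Field k] (π : L → k), DW.Res π → ∀ (t : Tm J L) (A : Finset J)
  (x p : J → Fin 3 → L), Pa t A x p → ∃ p', E t p p' ∧ Pa t A x p' ∧
    ∀ l ∈ A, (∀ c, ‖p' l c‖ ≤ 1) ∧ ∃ c, π (p' l c) ≠ 0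

/-- ND: good forms are nondegenerate -/
def StmND : Prop := ∀ N m : ℕ, ∃ q₀ : ℕ, ∀ (J k : Type) [Fintype J] [DecidableEq J] [Field k]
  [Fintype k] (t : Tm J k) (A : Finset J) (x : J → Fin 3 → k), q₀ ≤ Fintype.card k →
  A.card = m + 2 → Gn N t m A x → Nd t A x

/-- ESC: a move to a good slice -/
def StmESC : Prop := ∀ N m : ℕ, ∃ q₀ : ℕ, ∀ (J L k : Type) [Fintype J] [DecidableEq J]
  [NontriviallyNormedField L] [IsUltrametricDist L] [CompleteSpace L] [Field k] [Fintype k]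
  (π : L → k), DW.Res π → q₀ ≤ Fintype.card k → (2 : k) ≠ 0 → ∀ t : Tm J L, Sn t →
  (∀ a, ‖t a‖ ≤ 1) → ∀ (A : Finset J) (x : J → Fin 3 → L), (∀ l c, ‖x l c‖ ≤ 1) →
  Gn N (fun a => π (t a)) (m + 1) A (fun l c => π (x l c)) → ∀ p, Pa t A x p →
  ∃ j ∈ A, ∃ z : Fin 3 → L, (∀ c, ‖z c‖ ≤ 1) ∧
    Gn N (fun a => π (t a)) m (A.erase j) (fun l c => π (update x j z l c)) ∧
    ∃ p₁, E t p p₁ ∧ Pa t (A.erase j) (update x j z) p₁

/-- MEET: a good slice which meets two given good slices -/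
def StmMEET : Prop := ∀ N m : ℕ, ∃ q₀ : ℕ, ∀ (J L k : Type) [Fintype J] [DecidableEq J]
  [NontriviallyNormedField L] [IsUltrametricDist L] [CompleteSpace L] [Field k] [Fintype k]
  (π : L → k), DW.Res π → q₀ ≤ Fintype.card k → (2 : k) ≠ 0 → ∀ t : Tm J L, Sn t →
  (∀ a, ‖t a‖ ≤ 1) → ∀ (A : Finset J) (x : J → Fin 3 → L), A.card = m + 3 →
  (∀ l c, ‖x l c‖ ≤ 1) → Gn N (fun a => π (t a)) (m + 1) A (fun l c => π (x l c)) →
  ∀ j ∈ A, ∀ j' ∈ A, j ≠ j' → ∀ z z' : Fin 3 → L, (∀ c, ‖z c‖ ≤ 1) → (∀ c, ‖z' c‖ ≤ 1) →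
  Gn N (fun a => π (t a)) m (A.erase j) (fun l c => π (update x j z l c)) →
  Gn N (fun a => π (t a)) m (A.erase j) (fun l c => π (update x j z' l c)) →
  ∃ y : Fin 3 → L, (∀ c, ‖y c‖ ≤ 1) ∧
    Gn N (fun a => π (t a)) m (A.erase j') (fun l c => π (update x j' y l c)) ∧
    (∃ r, Pa t (A.erase j) (update x j z) r ∧ Pa t (A.erase j') (update x j' y) r) ∧
    ∃ r, Pa t (A.erase j) (update x j z') r ∧ Pa t (A.erase j') (update x j' y) r

/-- IND: all points of a good slice are joined -/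
def StmIND : Prop := ∀ N m : ℕ, ∃ q₀ : ℕ, ∀ (J L k : Type) [Fintype J] [DecidableEq J]
  [NontriviallyNormedField L] [IsUltrametricDist L] [CompleteSpace L] [Field k] [Fintype k]
  (π : L → k), DW.Res π → q₀ ≤ Fintype.card k → (2 : k) ≠ 0 → ∀ t : Tm J L, Sn t →
  (∀ a, ‖t a‖ ≤ 1) → ∀ (A : Finset J) (x : J → Fin 3 → L), A.card = m + 2 →
  (∀ l c, ‖x l c‖ ≤ 1) → Gn N (fun a => π (t a)) m A (fun l c => π (x l c)) →
  ∀ p q, Pa t A x p → Pa t A x q → E t p q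

/-- DEN: the points with smooth conics only are dense -/
def StmDEN : Prop := ∀ (J L : Type) [Fintype J] [DecidableEq J] [NontriviallyNormedField L],
  (2 : L) ≠ 0 → ∀ t : Tm J L, Sn t →
  (∀ p q : J → Fin 3 → L, (∀ l, p l ≠ 0) → Fn t p = 0 → (∀ l, q l ≠ 0) → Fn t q = 0 → E t p q) →
  ∀ p₀ : J → Fin 3 → L, (∀ l, p₀ l ≠ 0) → Fn t p₀ = 0 → (∀ j, (dj t j p₀).det ≠ 0) →
  ∀ p : J → Fin 3 → L, (∀ l, p l ≠ 0) → Fn t p = 0 → ∀ ε : ℝ, 0 < ε →
  ∃ q : J → Fin 3 → L, (∀ l, q l ≠ 0) ∧ Fn t q = 0 ∧ (∀ j, (dj t j q).det ≠ 0) ∧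
    ∀ l c, ‖q l c - p l c‖ < ε

/-- CL: the closure of the rational points is stable under moves at one place -/
def StmCL : Prop := ∀ (J K W L : Type) [Fintype J] [DecidableEq J] [Field K]
  [NontriviallyNormedField L] (M : W → Type) [∀ w, NontriviallyNormedField (M w)] (τ : K →+* L)
  (σ : ∀ w, K →+* M w), (DenseRange fun b : K => (τ b, fun w => σ w b)) → (2 : K) ≠ 0 →
  ∀ t : Tm J K, Sn t → ∀ R : ∀ w, J → Fin 3 → M w,
  (∀ w, Fn (fun a => σ w (t a)) (R w) = 0) →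
  (∀ w j, (dj (fun a => σ w (t a)) j (R w)).det ≠ 0) →
  ∀ p q : J → Fin 3 → L, E (fun a => τ (t a)) p q → Fn (fun a => τ (t a)) p = 0 →
  (p, R) ∈ closure {S : (J → Fin 3 → L) × (∀ w, J → Fin 3 → M w) | ∃ x : J → Fin 3 → K,
    Fn t x = 0 ∧ S = (fun l c => τ (x l c), fun w l c => σ w (x l c))} →
  (q, R) ∈ closure {S : (J → Fin 3 → L) × (∀ w, J → Fin 3 → M w) | ∃ x : J → Fin 3 → K,
    Fn t x = 0 ∧ S = (fun l c => τ (x l c), fun w l c => σ w (x l c))}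

end Pool.Agent.T6.H77.VN
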