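import Pool.Agent.T6.H77.VN.BAS
import Pool.Agent.T6.H77.VN.Stm
import Pool.Agent.T6.H77.RK.ZJD

/-!
# Zeros of a discriminant (module SZ, helper14)
-/

set_option autoImplicit false

namespace Pool.Agent.T6.H77.VN.SZ

open Polynomial Function

variable {J k : Type} [Fintype J] [DecidableEq J] [Field k]

/-- the entries of the matrix as bilinear forms in the vector `x_j` -/
def P (t : Tm J k) (i j : J) (x : J → Fin 3 → k) (a b : Fin 3) (y y' : Fin 3 → k) : k :=
  PB t (update (update x i (Pi.single a 1)) j y) (update (update x i (Pi.single b 1)) j y')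

theorem dj_P (t : Tm J k) {i j : J} (hij : i ≠ j) (x : J → Fin 3 → k) (y : Fin 3 → k)
    (a b : Fin 3) : dj t i (update x j y) a b = P t i j x a b y y := by
  unfold P
  rw [← update_comm hij.symm, ← update_comm hij.symm]
  rfl

theorem P_self (t : Tm J k) {i j : J} (hij : i ≠ j) (x : J → Fin 3 → k)
    (a b : Fin 3) : P t i j x a b (x j) (x j) = dj t i x a b := by
  rw [← dj_P t hij, update_eq_self]

theorem P_lin (t : Tm J k) (i j : J) (x : J → Fin 3 → k) (a b : Fin 3) (z w : Fin 3 → k) (s : k) :
    P t i j x a b (z + s • w) (z + s • w) = P t i j x a b w w * s ^ 2 +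
      (P t i j x a b z w + P t i j x a b w z) * s + P t i j x a b z z := by
  unfold P
  rw [PB_add1, PB_add2, PB_add2, PB_smul1, PB_smul1, PB_smul2, PB_smul2]
  ring

end Pool.Agent.T6.H77.VN.SZ

namespace Pool.Agent.T6.H77.VN

open Polynomial Function SZ RK.ZJD

theorem sz : StmSZ := by
  intro J k _ _ _ _ t i j hij x hx
  refine cnt _ (x j) 6 fun z => ?_
  set M : Matrix (Fin 3) (Fin 3) (Polynomial k) :=
    Matrix.of fun a b => C (P t i j x a b (x j) (x j)) * X ^ 2 +
      C (P t i j x a b z (x j) + P t i j x a b (x j) z) * X + C (P t i j x a b z z) with hM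
  have hd : ∀ a b, (M a b).natDegree ≤ 2 := fun a b => quad_deg _ _ _
  obtain ⟨h1, h2⟩ := deg_det 2 M hd
  have h3 : (Matrix.of fun a b => (M a b).coeff 2) = dj t i x := by
    ext a b
    exact (quad_coeff _ _ _).trans (P_self t hij x a b)
  rw [h3] at h2
  refine ⟨M.det, ?_, by simpa using h1, ?_⟩
  · intro h0
    rw [h0] at h2
    exact hx (by simpa using h2.symm)
  · intro s hs
    have h4 : (evalRingHom s) M.det = (dj t i (update x j (z + s • x j))).det := by
      rw [RingHom.map_det]
      congr 1
      ext a b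
      rw [dj_P t hij, P_lin]
      simp only [hM, RingHom.mapMatrix_apply, Matrix.map_apply, Matrix.of_apply,
        coe_evalRingHom, eval_add, eval_mul, eval_C, eval_X, eval_pow]
    rw [Set.mem_ofPred_eq] at hs
    rw [hs] at h4
    simpa using h4

end Pool.Agent.T6.H77.VN
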